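import Mathlib

/-!
# Hyperbolic periodic orbits of analytic delay equations need not be analytic in the parameter
-/

set_option autoImplicit false

open Filter Topology Set

namespace Pool.Agent.Results.MP_c1c035_an.NotAnalytic

/-! ### Growth of derivatives of analytic functions -/

lemma analytic_growth {G : ℝ → ℂ} {x : ℝ} (h : AnalyticAt ℝ G x) :
    ∃ C ρ : ℝ, 0 < C ∧ 0 < ρ ∧ ∀ k, ‖iteratedDeriv k G x‖ ≤ C * ρ ^ k * (k.factorial : ℝ) := by
  obtain ⟨p, R, hp⟩ := h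
  have hrad : 0 < p.radius := lt_of_lt_of_le hp.r_pos hp.r_le
  obtain ⟨C, ρ, hC, hρ, hb⟩ := p.le_mul_pow_of_radius_pos hrad
  refine ⟨C, ρ, hC, hρ, fun k => ?_⟩
  have h1 := hp.factorial_smul 1 k
  rw [← iteratedDeriv_eq_iteratedFDeriv] at h1
  rw [← h1, nsmul_eq_mul, norm_mul, Complex.norm_natCast, mul_comm]
  gcongr
  have h2 := (p k).le_opNorm (fun _ => (1 : ℝ))
  simp only [norm_one, Finset.prod_const_one, mul_one] at h2
  exact h2.trans (hb k)

/-! ### The coefficients -/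

/-- The Fourier coefficients. -/
noncomputable def cc : ℕ → ℝ
  | 0 => 1
  | n + 1 => cc n / (2 * (1 + ((n : ℝ) + 1) ^ 2))

lemma cc_pos : ∀ n, 0 < cc n
  | 0 => one_pos
  | n + 1 => by
    have := cc_pos n
    rw [cc]
    positivity

lemma cc_succ (n : ℕ) : (1 + ((n : ℝ) + 1) ^ 2) * cc (n + 1) = 1 / 2 * cc n := by
  rw [cc]
  field_simp

lemma cc_le : ∀ n, cc n ≤ (1 / 2) ^ n
  | 0 => by simp [cc]
  | n + 1 => by
    have h := cc_le n
    have h0 := cc_pos n
    rw [cc, div_le_iff₀ (by positivity), pow_succ]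
    have h2 : 0 < ((1 : ℝ) / 2) ^ n := by positivity
    have h3 : (0 : ℝ) ≤ ((n : ℝ) + 1) ^ 2 := by positivity
    nlinarith [mul_nonneg h2.le h3]

lemma cc_ge : ∀ n, 1 / (4 ^ n * (n.factorial : ℝ) ^ 2) ≤ cc n
  | 0 => by simp [cc]
  | n + 1 => by
    have h := cc_ge n
    rw [cc, le_div_iff₀ (by positivity)]
    refine le_trans ?_ h
    rw [div_mul_eq_mul_div, one_mul, div_le_div_iff₀ (by positivity) (by positivity),
      Nat.factorial_succ]
    push_cast
    have h3 : 1 + ((n : ℝ) + 1) ^ 2 ≤ 2 * ((n : ℝ) + 1) ^ 2 := by nlinarith [Nat.cast_nonneg (α := ℝ) n]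
    have h4 : (0 : ℝ) ≤ 4 ^ n * (n.factorial : ℝ) ^ 2 := by positivity
    calc 2 * (1 + ((n : ℝ) + 1) ^ 2) * (4 ^ n * (n.factorial : ℝ) ^ 2) ≤
        2 * (2 * ((n : ℝ) + 1) ^ 2) * (4 ^ n * (n.factorial : ℝ) ^ 2) := by gcongr
      _ = _ := by ring

lemma summable_cc (k : ℕ) : Summable fun n : ℕ => (n : ℝ) ^ k * cc n := by
  have h := summable_pow_mul_geometric_of_norm_lt_one (R := ℝ) k (r := 1 / 2) (by norm_num)
  refine Summable.of_nonneg_of_le (fun n => ?_) (fun n => ?_) h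
  · have := cc_pos n; positivity
  · have := cc_le n
    gcongr

/-! ### Exponential series -/

/-- The series `∑ w(n) exp(i ω(n) s)`. -/
noncomputable def SS (w : ℕ → ℂ) (ω : ℕ → ℝ) (s : ℝ) : ℂ :=
  ∑' n, w n * Complex.exp (Complex.I * (ω n * s : ℝ))

lemma norm_exp_I (x : ℝ) : ‖Complex.exp (Complex.I * (x : ℝ))‖ = 1 := by
  rw [mul_comm]
  exact Complex.norm_exp_ofReal_mul_I x

lemma hasDerivAt_SS {w : ℕ → ℂ} {ω : ℕ → ℝ} (h0 : Summable fun n => ‖w n‖)
    (h1 : Summable fun n => ‖w n‖ * |ω n|) (s : ℝ) :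
    HasDerivAt (SS w ω) (SS (fun n => w n * (Complex.I * ω n)) ω s) s := by
  unfold SS
  have hg : ∀ (n : ℕ) (y : ℝ), HasDerivAt (fun s : ℝ => w n * Complex.exp (Complex.I * (ω n * s : ℝ)))
      (w n * (Complex.I * ω n) * Complex.exp (Complex.I * (ω n * y : ℝ))) y := by
    intro n y
    have h2 : HasDerivAt (fun s : ℝ => ((ω n * s : ℝ) : ℂ)) (ω n : ℂ) y := by
      have h3 : HasDerivAt (fun s : ℝ => ω n * s) (ω n) y := by
        simpa using (hasDerivAt_id y).const_mul (ω n)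
      exact h3.ofReal_comp
    have h4 := ((h2.const_mul Complex.I).cexp).const_mul (w n)
    refine h4.congr_deriv ?_
    ring
  refine hasDerivAt_tsum (𝕜 := ℝ) (u := fun n => ‖w n‖ * |ω n|) (y₀ := 0) h1 hg ?_ ?_ s
  · intro n y
    rw [norm_mul, norm_exp_I, mul_one, norm_mul, norm_mul, Complex.norm_I, one_mul,
      Complex.norm_real, Real.norm_eq_abs]
  · refine Summable.of_norm ?_
    refine h0.congr fun n => ?_
    rw [norm_mul, norm_exp_I, mul_one]

/-- The function of the parameter whose analyticity fails. -/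
noncomputable def GG (α : ℝ) : ℂ :=
  SS (fun n => (cc n : ℂ)) (fun n => -(Real.pi * (n * ((n : ℝ) - 1)))) α

lemma summable_w (k : ℕ) : Summable fun n : ℕ =>
    ‖(cc n : ℂ) * (Complex.I * ((-(Real.pi * (n * ((n : ℝ) - 1))) : ℝ) : ℂ)) ^ k‖ := by
  have h := (summable_cc (2 * k)).mul_left (Real.pi ^ k)
  refine Summable.of_nonneg_of_le (fun n => norm_nonneg _) (fun n => ?_) h
  rw [norm_mul, norm_pow, norm_mul, Complex.norm_I, one_mul, Complex.norm_real, Complex.norm_real,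
    Real.norm_eq_abs, Real.norm_eq_abs, abs_of_pos (cc_pos n), abs_neg]
  have h1 : |Real.pi * (n * ((n : ℝ) - 1))| ≤ Real.pi * (n : ℝ) ^ 2 := by
    rcases Nat.eq_zero_or_pos n with h0 | h0
    · subst h0; simp
    · have h2 : (1 : ℝ) ≤ n := by exact_mod_cast h0
      have h3 : 0 ≤ (n : ℝ) * ((n : ℝ) - 1) := by nlinarith
      rw [abs_of_nonneg (mul_nonneg Real.pi_pos.le h3)]
      have := Real.pi_pos
      gcongr
      nlinarith
  calc cc n * |Real.pi * (n * ((n : ℝ) - 1))| ^ k ≤ cc n * (Real.pi * (n : ℝ) ^ 2) ^ k := by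
        have := (cc_pos n).le
        gcongr
    _ = Real.pi ^ k * ((n : ℝ) ^ (2 * k) * cc n) := by rw [mul_pow, ← pow_mul]; ring

lemma iteratedDeriv_GG (k : ℕ) : iteratedDeriv k GG =
    SS (fun n => (cc n : ℂ) * (Complex.I * ((-(Real.pi * (n * ((n : ℝ) - 1))) : ℝ) : ℂ)) ^ k)
      (fun n => -(Real.pi * (n * ((n : ℝ) - 1)))) := by
  induction k with
  | zero =>
    rw [iteratedDeriv_zero]
    simp only [pow_zero, mul_one]
    rfl
  | succ k ih =>
    rw [iteratedDeriv_succ, ih]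
    funext s
    have h1 : Summable fun n : ℕ =>
        ‖(cc n : ℂ) * (Complex.I * ((-(Real.pi * (n * ((n : ℝ) - 1))) : ℝ) : ℂ)) ^ k‖ *
        |-(Real.pi * (n * ((n : ℝ) - 1)))| := by
      refine (summable_w (k + 1)).congr fun n => ?_
      rw [pow_succ, ← mul_assoc, norm_mul _ (Complex.I * _), norm_mul Complex.I, Complex.norm_I,
        one_mul, Complex.norm_real, Real.norm_eq_abs]
    rw [(hasDerivAt_SS (summable_w k) h1 s).deriv]
    congr 1
    funext n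
    rw [pow_succ]
    ring

/-- At `α = 1` all the terms have the same phase. -/
lemma norm_iteratedDeriv_GG (k n : ℕ) :
    cc n * (Real.pi * (n * ((n : ℝ) - 1))) ^ k ≤ ‖iteratedDeriv k GG 1‖ := by
  have hnn : ∀ m : ℕ, 0 ≤ (m : ℝ) * ((m : ℝ) - 1) := by
    intro m
    rcases Nat.eq_zero_or_pos m with h0 | h0
    · subst h0; simp
    · have h2 : (1 : ℝ) ≤ m := by exact_mod_cast h0
      nlinarith
  have hexp : ∀ m : ℕ, Complex.exp (Complex.I * ((-(Real.pi * (m * ((m : ℝ) - 1))) * 1 : ℝ) : ℂ)) = 1 := by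
    intro m
    rw [Complex.exp_eq_one_iff]
    -- `m (m - 1)` is even
    have heven : ∃ j : ℤ, (m : ℝ) * ((m : ℝ) - 1) = 2 * j := by
      rcases Nat.even_or_odd m with ⟨a, ha⟩ | ⟨a, ha⟩
      · refine ⟨a * (2 * a - 1), ?_⟩
        rw [ha]; push_cast; ring
      · refine ⟨a * (2 * a + 1), ?_⟩
        rw [ha]; push_cast; ring
    obtain ⟨j, hj⟩ := heven
    refine ⟨-j, ?_⟩
    rw [hj]
    push_cast
    ring
  have hval : iteratedDeriv k GG 1 = (-Complex.I) ^ k *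
      ((∑' m : ℕ, cc m * (Real.pi * (m * ((m : ℝ) - 1))) ^ k : ℝ) : ℂ) := by
    rw [iteratedDeriv_GG, SS, Complex.ofReal_tsum, ← tsum_mul_left]
    refine tsum_congr fun m => ?_
    have e : Complex.I * ((-(Real.pi * (m * ((m : ℝ) - 1))) : ℝ) : ℂ) =
        (-Complex.I) * ((Real.pi * (m * ((m : ℝ) - 1)) : ℝ) : ℂ) := by push_cast; ring
    rw [hexp m, mul_one, e, mul_pow]
    push_cast
    ring
  have hsum : Summable fun m : ℕ => cc m * (Real.pi * (m * ((m : ℝ) - 1))) ^ k := by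
    refine (summable_w k).congr fun m => ?_
    rw [norm_mul, norm_pow, norm_mul, Complex.norm_I, one_mul, Complex.norm_real,
      Complex.norm_real, Real.norm_eq_abs, Real.norm_eq_abs, abs_of_pos (cc_pos m), abs_neg,
      abs_of_nonneg (mul_nonneg Real.pi_pos.le (hnn m))]
  have hterm : ∀ m : ℕ, 0 ≤ cc m * (Real.pi * (m * ((m : ℝ) - 1))) ^ k := fun m =>
    mul_nonneg (cc_pos m).le (pow_nonneg (mul_nonneg Real.pi_pos.le (hnn m)) _)
  rw [hval, norm_mul, norm_pow, norm_neg, Complex.norm_I, one_pow, one_mul, Complex.norm_real,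
    Real.norm_eq_abs, abs_of_nonneg (tsum_nonneg hterm)]
  exact hsum.le_tsum n fun m _ => hterm m

/-- `GG` is not analytic at `1`. -/
lemma not_analytic_GG : ¬ AnalyticAt ℝ GG 1 := by
  intro h
  obtain ⟨C, ρ, hC, hρ, hb⟩ := analytic_growth h
  -- the inequality for `k = 3 n`
  have key : ∀ n : ℕ, 2 ≤ n → (n : ℝ) ^ n ≤ C * (864 * ρ ^ 3) ^ n := by
    intro n hn
    have hn' : (2 : ℝ) ≤ n := by exact_mod_cast hn
    have h1 := (norm_iteratedDeriv_GG (3 * n) n).trans (hb (3 * n))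
    have h2 : (1 : ℝ) / (4 ^ n * (n : ℝ) ^ (2 * n)) ≤ cc n := by
      refine le_trans ?_ (cc_ge n)
      have h3 : (n.factorial : ℝ) ≤ (n : ℝ) ^ n := by exact_mod_cast Nat.factorial_le_pow n
      have h4 : (n.factorial : ℝ) ^ 2 ≤ (n : ℝ) ^ (2 * n) := by
        calc (n.factorial : ℝ) ^ 2 ≤ ((n : ℝ) ^ n) ^ 2 := by gcongr
          _ = _ := by rw [← pow_mul, mul_comm]
      gcongr
    have h3 : ((n : ℝ) ^ 2 / 2) ^ (3 * n) ≤ (Real.pi * (n * ((n : ℝ) - 1))) ^ (3 * n) := by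
      have : (n : ℝ) ^ 2 / 2 ≤ Real.pi * (n * ((n : ℝ) - 1)) := by
        have h4 : (n : ℝ) ^ 2 / 2 ≤ n * ((n : ℝ) - 1) := by nlinarith
        have h5 : 0 ≤ (n : ℝ) * ((n : ℝ) - 1) := by nlinarith
        nlinarith [Real.pi_gt_three]
      gcongr
    have h4 : ((3 * n).factorial : ℝ) ≤ (3 * n : ℝ) ^ (3 * n) := by
      exact_mod_cast Nat.factorial_le_pow (3 * n)
    have h5 : (1 : ℝ) / (4 ^ n * (n : ℝ) ^ (2 * n)) * ((n : ℝ) ^ 2 / 2) ^ (3 * n) ≤
        C * ρ ^ (3 * n) * (3 * n : ℝ) ^ (3 * n) := by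
      calc (1 : ℝ) / (4 ^ n * (n : ℝ) ^ (2 * n)) * ((n : ℝ) ^ 2 / 2) ^ (3 * n) ≤
          cc n * (Real.pi * (n * ((n : ℝ) - 1))) ^ (3 * n) := by
            have := (cc_pos n).le
            gcongr
        _ ≤ C * ρ ^ (3 * n) * ((3 * n).factorial : ℝ) := h1
        _ ≤ _ := by gcongr
    have hnp : (0 : ℝ) < n := by linarith
    have e1 : (1 : ℝ) / (4 ^ n * (n : ℝ) ^ (2 * n)) * ((n : ℝ) ^ 2 / 2) ^ (3 * n) =
        (n : ℝ) ^ (3 * n) * (n : ℝ) ^ n / 32 ^ n := by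
      have e2 : (32 : ℝ) ^ n = 4 ^ n * 8 ^ n := by rw [← mul_pow]; norm_num
      have e3 : ((2 : ℝ)) ^ (3 * n) = 8 ^ n := by rw [pow_mul]; norm_num
      have e4 : ((n : ℝ) ^ 2) ^ (3 * n) = (n : ℝ) ^ (3 * n) * (n : ℝ) ^ n * (n : ℝ) ^ (2 * n) := by
        rw [← pow_mul, ← pow_add, ← pow_add]; congr 1; ring
      rw [div_pow, e2, e3, e4]
      field_simp
    have e5 : C * ρ ^ (3 * n) * (3 * n : ℝ) ^ (3 * n) =
        (n : ℝ) ^ (3 * n) * (C * (27 * ρ ^ 3) ^ n) := by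
      rw [mul_pow (3 : ℝ), mul_pow (27 : ℝ), ← pow_mul ρ 3 n]
      have : (3 : ℝ) ^ (3 * n) = 27 ^ n := by rw [pow_mul]; norm_num
      rw [this]
      ring
    rw [e1, e5, mul_div_assoc] at h5
    have h6 := le_of_mul_le_mul_left h5 (by positivity)
    rw [div_le_iff₀ (by positivity)] at h6
    calc (n : ℝ) ^ n ≤ C * (27 * ρ ^ 3) ^ n * 32 ^ n := h6
      _ = C * (864 * ρ ^ 3) ^ n := by rw [mul_assoc, ← mul_pow]; congr 2; ring
  -- contradiction
  obtain ⟨n₁, hn₁⟩ := exists_nat_ge (2 * (864 * ρ ^ 3))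
  obtain ⟨n₂, hn₂⟩ := pow_unbounded_of_one_lt C (one_lt_two : (1 : ℝ) < 2)
  set n := max 2 (max n₁ n₂) with hn
  have h1 := key n (le_max_left _ _)
  have h2 : 2 * (864 * ρ ^ 3) ≤ (n : ℝ) := by
    refine hn₁.trans ?_
    exact_mod_cast (le_max_left n₁ n₂).trans (le_max_right 2 _)
  have h3 : C < 2 ^ n := by
    refine lt_of_lt_of_le hn₂ ?_
    exact pow_le_pow_right₀ (by norm_num) ((le_max_right n₁ n₂).trans (le_max_right 2 _))
  have h4 : (2 * (864 * ρ ^ 3)) ^ n ≤ (n : ℝ) ^ n := by gcongr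
  rw [mul_pow] at h4
  have h5 : 0 < (864 * ρ ^ 3) ^ n := by positivity
  have h6 : 2 ^ n * (864 * ρ ^ 3) ^ n ≤ C * (864 * ρ ^ 3) ^ n := h4.trans h1
  have h7 := le_of_mul_le_mul_right h6 h5
  linarith

/-! ### Delay equations: the notions of the problem -/

section Notions

variable {N M : ℕ}

/-- `(x(t - r_0), x(t - r_1), …, x(t - r_M))`; below `r_0 = 0`. -/
def hist (r : Fin (M + 1) → ℝ) (x : ℝ → Fin N → ℝ) (t : ℝ) : Fin (M + 1) → Fin N → ℝ :=
  fun k => x (t - r k)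

/-- `x` solves `x'(t) = f(x(t), x(t - r_1), …, x(t - r_M), α)` on `ℝ`. -/
def IsSolution (f : (Fin (M + 1) → Fin N → ℝ) × ℝ → Fin N → ℝ) (r : Fin (M + 1) → ℝ) (α : ℝ)
    (x : ℝ → Fin N → ℝ) : Prop :=
  ∀ t, HasDerivAt x (f (hist r x t, α)) t

/-- `x` is a nonconstant periodic solution with minimal period `p`. -/
structure IsPeriodicSolution (f : (Fin (M + 1) → Fin N → ℝ) × ℝ → Fin N → ℝ)
    (r : Fin (M + 1) → ℝ) (α : ℝ) (x : ℝ → Fin N → ℝ) (p : ℝ) : Prop where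
  sol : IsSolution f r α x
  pos : 0 < p
  periodic : Function.Periodic x p
  minimal : ∀ q, 0 < q → Function.Periodic x q → p ≤ q
  nonconstant : ∃ s t, x s ≠ x t

/-- `y` is a solution on `[-R, ∞)` of the variational equation along `x₀`. -/
def IsVarSolution (f : (Fin (M + 1) → Fin N → ℝ) × ℝ → Fin N → ℝ) (r : Fin (M + 1) → ℝ)
    (α₀ : ℝ) (x₀ : ℝ → Fin N → ℝ) (R : ℝ) (y : ℝ → Fin N → ℝ) : Prop :=
  ContinuousOn y (Ici (-R)) ∧ ∀ t, 0 ≤ t →
    HasDerivWithinAt y (fderiv ℝ (fun ξ => f (ξ, α₀)) (hist r x₀ t) (hist r y t)) (Ici 0) t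

/-- `U φ = ψ` for the monodromy operator `U` on `C([-R, 0], ℝᴺ)` (functions are only considered
on `[-R, 0]`): the solution of the variational equation with initial segment `φ` has the segment
`ψ` at time `p₀`. -/
def Mono (f : (Fin (M + 1) → Fin N → ℝ) × ℝ → Fin N → ℝ) (r : Fin (M + 1) → ℝ)
    (α₀ : ℝ) (x₀ : ℝ → Fin N → ℝ) (R p₀ : ℝ) (φ ψ : ℝ → Fin N → ℝ) : Prop :=
  ∃ y, IsVarSolution f r α₀ x₀ R y ∧ (∀ θ ∈ Icc (-R) 0, y θ = φ θ) ∧
    ∀ θ ∈ Icc (-R) 0, y (p₀ + θ) = ψ θ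

/-- `μ ∈ ℂ` is a characteristic multiplier: `μ ≠ 0` and `U (φ₁ + i φ₂) = μ (φ₁ + i φ₂)` for some
`φ₁ + i φ₂ ≠ 0`. -/
def IsMultiplier (f : (Fin (M + 1) → Fin N → ℝ) × ℝ → Fin N → ℝ) (r : Fin (M + 1) → ℝ)
    (α₀ : ℝ) (x₀ : ℝ → Fin N → ℝ) (R p₀ : ℝ) (μ : ℂ) : Prop :=
  μ ≠ 0 ∧ ∃ φ₁ φ₂ : ℝ → Fin N → ℝ, (∃ θ ∈ Icc (-R) 0, φ₁ θ ≠ 0 ∨ φ₂ θ ≠ 0) ∧
    Mono f r α₀ x₀ R p₀ φ₁ (fun θ => μ.re • φ₁ θ - μ.im • φ₂ θ) ∧
    Mono f r α₀ x₀ R p₀ φ₂ (fun θ => μ.im • φ₁ θ + μ.re • φ₂ θ)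

/-- The periodic solution `x₀` is hyperbolic: `1` is an algebraically simple multiplier, with
eigenvector `x₀'`, and all other multipliers have modulus different from `1`. -/
structure IsHyperbolic (f : (Fin (M + 1) → Fin N → ℝ) × ℝ → Fin N → ℝ) (r : Fin (M + 1) → ℝ)
    (α₀ : ℝ) (x₀ : ℝ → Fin N → ℝ) (R p₀ : ℝ) : Prop where
  nontrivial : ∀ μ, IsMultiplier f r α₀ x₀ R p₀ μ → μ ≠ 1 → ‖μ‖ ≠ 1
  trivial : IsMultiplier f r α₀ x₀ R p₀ 1
  kernel : ∀ ψ, Mono f r α₀ x₀ R p₀ ψ ψ → ∃ b : ℝ, ∀ θ ∈ Icc (-R) 0, ψ θ = b • deriv x₀ θ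
  simple : ∀ φ ψ, Mono f r α₀ x₀ R p₀ φ (fun θ => φ θ + ψ θ) → Mono f r α₀ x₀ R p₀ ψ ψ →
    ∀ θ ∈ Icc (-R) 0, ψ θ = 0

/-- `α ↦ (X α, p α)` is a continuation of the periodic solution `x₀` of period `p₀`, normalized
by the section condition `⟨x(0, α) - x₀(0), x₀'(0)⟩ = 0`. -/
structure IsContinuation (f : (Fin (M + 1) → Fin N → ℝ) × ℝ → Fin N → ℝ) (r : Fin (M + 1) → ℝ)
    (α₀ : ℝ) (x₀ : ℝ → Fin N → ℝ) (p₀ : ℝ) (X : ℝ → ℝ → Fin N → ℝ) (p : ℝ → ℝ) : Prop where
  start : X α₀ = x₀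
  start_period : p α₀ = p₀
  solution : ∀ᶠ α in 𝓝 α₀, IsSolution f r α (X α) ∧ 0 < p α ∧ Function.Periodic (X α) (p α)
  section_cond : ∀ᶠ α in 𝓝 α₀, ∑ i, (X α 0 i - x₀ 0 i) * deriv x₀ 0 i = 0
  continuous_period : ContinuousAt p α₀
  continuous_solution : ∀ t, ContinuousAt (fun q : ℝ × ℝ => X q.1 q.2) (α₀, t)

end Notions

/-! ### Uniqueness for the variational equation -/

section Uniqueness

variable {N M : ℕ}

lemma dde_zero {w w' : ℝ → Fin N → ℝ} {R K T : ℝ} (hR : 0 ≤ R) (hK : 0 ≤ K)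
    (hcont : ContinuousOn w (Ici (-R)))
    (hd : ∀ t, 0 ≤ t → HasDerivWithinAt w (w' t) (Ici 0) t) (h0 : ∀ t ∈ Icc (-R) 0, w t = 0)
    (hb : ∀ t ∈ Icc 0 T, ∀ m, (∀ s ∈ Icc (-R) t, ‖w s‖ ≤ m) → ‖w' t‖ ≤ K * m) (hT : 0 ≤ T) :
    ∀ t ∈ Icc 0 T, w t = 0 := by
  set L : ℝ := 2 * K + 1 with hL
  have hL0 : 0 < L := by positivity
  have hc : ContinuousOn (fun s => ‖w s‖ * Real.exp (-(L * s))) (Icc (-R) T) := by
    have h1 : ContinuousOn w (Icc (-R) T) := hcont.mono fun x hx => hx.1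
    have h2 : Continuous fun s : ℝ => Real.exp (-(L * s)) := by fun_prop
    exact h1.norm.mul h2.continuousOn
  have hne : (Icc (-R) T).Nonempty := ⟨0, by linarith, hT⟩
  obtain ⟨s₀, hs₀, hmax⟩ := isCompact_Icc.exists_isMaxOn hne hc
  set m : ℝ := ‖w s₀‖ * Real.exp (-(L * s₀)) with hm
  have hm0 : 0 ≤ m := by positivity
  have hbd : ∀ s ∈ Icc (-R) T, ‖w s‖ ≤ m * Real.exp (L * s) := by
    intro s hs
    have h1 : ‖w s‖ * Real.exp (-(L * s)) ≤ m := hmax hs
    have h2 : ‖w s‖ = ‖w s‖ * Real.exp (-(L * s)) * Real.exp (L * s) := by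
      rw [mul_assoc, ← Real.exp_add]; simp
    rw [h2]
    gcongr
  have hgr : ∀ t ∈ Icc 0 T, ‖w t‖ ≤ K * m / L * (Real.exp (L * t) - 1) := by
    intro t ht
    refine image_norm_le_of_norm_deriv_right_le_deriv_boundary (f := w) (f' := w') (a := 0)
      (b := T) (B := fun s => K * m / L * (Real.exp (L * s) - 1))
      (B' := fun s => K * m * Real.exp (L * s)) ?_ ?_ ?_ ?_ ?_ ht
    · exact hcont.mono fun x hx => by
        show -R ≤ x
        linarith [hx.1]
    · intro x hx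
      exact (hd x hx.1).mono (Ici_subset_Ici.2 hx.1)
    · rw [h0 0 ⟨by linarith, le_rfl⟩]
      simp
    · intro x
      have h1 : HasDerivAt (fun s : ℝ => L * s) L x := by simpa using (hasDerivAt_id x).const_mul L
      refine ((h1.exp.sub_const 1).const_mul (K * m / L)).congr_deriv ?_
      field_simp
    · intro x hx
      refine (hb x ⟨hx.1, hx.2.le⟩ (m * Real.exp (L * x)) fun s hs => ?_).trans (le_of_eq ?_)
      · refine (hbd s ⟨hs.1, hs.2.trans hx.2.le⟩).trans ?_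
        have : Real.exp (L * s) ≤ Real.exp (L * x) := by
          apply Real.exp_le_exp.2
          exact mul_le_mul_of_nonneg_left hs.2 hL0.le
        gcongr
      · ring
  have hmz : m = 0 := by
    rcases le_total s₀ 0 with h1 | h1
    · rw [hm, h0 s₀ ⟨hs₀.1, h1⟩]; simp
    · have h2 := hgr s₀ ⟨h1, hs₀.2⟩
      have h3 : m ≤ K * m / L := by
        have h4 : ‖w s₀‖ * Real.exp (-(L * s₀)) ≤
            K * m / L * (Real.exp (L * s₀) - 1) * Real.exp (-(L * s₀)) := by gcongr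
        have h5 : K * m / L * (Real.exp (L * s₀) - 1) * Real.exp (-(L * s₀)) =
            K * m / L * (1 - Real.exp (-(L * s₀))) := by
          rw [mul_assoc, sub_mul, ← Real.exp_add]; simp
        have h6 : K * m / L * (1 - Real.exp (-(L * s₀))) ≤ K * m / L * 1 := by
          have := Real.exp_pos (-(L * s₀))
          gcongr
          linarith
        rw [h5] at h4
        linarith
      rw [le_div_iff₀ hL0] at h3
      have : m * (K + 1) ≤ 0 := by rw [hL] at h3; nlinarith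
      nlinarith
  intro t ht
  have h1 := hbd t ⟨by linarith [ht.1], ht.2⟩
  rw [hmz, zero_mul] at h1
  exact norm_le_zero_iff.1 h1

variable {f : (Fin (M + 1) → Fin N → ℝ) × ℝ → Fin N → ℝ} {r : Fin (M + 1) → ℝ} {α₀ R p₀ : ℝ}
  {x₀ : ℝ → Fin N → ℝ} {y z : ℝ → Fin N → ℝ}

lemma hist_add (y z : ℝ → Fin N → ℝ) (t : ℝ) :
    hist r (fun s => y s + z s) t = hist r y t + hist r z t := rfl

lemma hist_sub (y z : ℝ → Fin N → ℝ) (t : ℝ) :
    hist r (fun s => y s - z s) t = hist r y t - hist r z t := rfl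

lemma hist_smul (b : ℝ) (y : ℝ → Fin N → ℝ) (t : ℝ) :
    hist r (fun s => b • y s) t = b • hist r y t := rfl

lemma IsVarSolution.sub (hy : IsVarSolution f r α₀ x₀ R y) (hz : IsVarSolution f r α₀ x₀ R z) :
    IsVarSolution f r α₀ x₀ R fun s => y s - z s := by
  refine ⟨hy.1.sub hz.1, fun t ht => ?_⟩
  rw [hist_sub, map_sub]
  exact (hy.2 t ht).fun_sub (hz.2 t ht)

lemma IsVarSolution.add (hy : IsVarSolution f r α₀ x₀ R y) (hz : IsVarSolution f r α₀ x₀ R z) :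
    IsVarSolution f r α₀ x₀ R fun s => y s + z s := by
  refine ⟨hy.1.add hz.1, fun t ht => ?_⟩
  rw [hist_add, map_add]
  exact (hy.2 t ht).fun_add (hz.2 t ht)

lemma IsVarSolution.smul (b : ℝ) (hy : IsVarSolution f r α₀ x₀ R y) :
    IsVarSolution f r α₀ x₀ R fun s => b • y s := by
  refine ⟨hy.1.const_smul b, fun t ht => ?_⟩
  rw [hist_smul, map_smul]
  exact (hy.2 t ht).fun_const_smul b

lemma IsVarSolution.shift (hx₀ : Function.Periodic x₀ p₀) (hp₀ : 0 ≤ p₀)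
    (hy : IsVarSolution f r α₀ x₀ R y) : IsVarSolution f r α₀ x₀ R fun s => y (p₀ + s) := by
  refine ⟨?_, fun t ht => ?_⟩
  · refine hy.1.comp (by fun_prop) fun s hs => ?_
    have : -R ≤ s := hs
    show -R ≤ p₀ + s
    linarith
  · have h1 := hy.2 (p₀ + t) (by linarith)
    have h2 : hist r x₀ (p₀ + t) = hist r x₀ t := by
      funext k
      unfold hist
      have := hx₀ (t - r k)
      rw [← this]
      congr 1
      ring
    have h3 : hist r (fun s => y (p₀ + s)) t = hist r y (p₀ + t) := by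
      funext k
      unfold hist
      rw [add_sub_assoc]
    rw [h3, ← h2]
    have h4 : HasDerivWithinAt (fun s : ℝ => p₀ + s) 1 (Ici 0) t := by
      simpa using (hasDerivWithinAt_id t (Ici 0)).const_add p₀
    have h5 := h1.scomp t h4 (fun s hs => by
      have : (0 : ℝ) ≤ s := hs
      show 0 ≤ p₀ + s
      linarith)
    exact h5.congr_deriv (one_smul ℝ _)

/-- Solutions of the variational equation are determined by their initial segment. -/
lemma IsVarSolution.unique (hf : ContDiff ℝ 1 fun ξ => f (ξ, α₀)) (hx₀ : Continuous x₀)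
    (hr0 : ∀ k, 0 ≤ r k) (hrR : ∀ k, r k ≤ R) (hy : IsVarSolution f r α₀ x₀ R y)
    (hz : IsVarSolution f r α₀ x₀ R z) (h0 : ∀ θ ∈ Icc (-R) 0, y θ = z θ) :
    ∀ t, -R ≤ t → y t = z t := by
  have hR : 0 ≤ R := (hr0 0).trans (hrR 0)
  have hd := hy.sub hz
  have key : ∀ T, 0 ≤ T → y T - z T = 0 := by
    intro T hT
    have hcont : Continuous fun t => ‖fderiv ℝ (fun ξ => f (ξ, α₀)) (hist r x₀ t)‖ := by
      have h1 : Continuous fun t => hist r x₀ t := by
        unfold hist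
        fun_prop
      exact ((hf.continuous_fderiv (by norm_num)).comp h1).norm
    obtain ⟨K, hK⟩ := isCompact_Icc.exists_bound_of_continuousOn (hcont.continuousOn (s := Icc 0 T))
    have hK0 : 0 ≤ K := (norm_nonneg _).trans (hK 0 ⟨le_rfl, hT⟩)
    refine dde_zero (w := fun s => y s - z s) (R := R) (K := K) hR hK0 hd.1 hd.2
      (fun t ht => by show y t - z t = 0; rw [h0 t ht, sub_self]) ?_ hT T ⟨hT, le_rfl⟩
    intro t ht m hm
    refine (ContinuousLinearMap.le_opNorm _ _).trans ?_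
    have h1 := hK t ht
    rw [norm_norm] at h1
    have h2 : ‖hist r (fun s => y s - z s) t‖ ≤ m := by
      have hm0 : 0 ≤ m := (norm_nonneg _).trans (hm t ⟨by linarith [ht.1], le_rfl⟩)
      rw [pi_norm_le_iff_of_nonneg hm0]
      intro k
      refine hm (t - r k) ⟨?_, ?_⟩
      · linarith [hrR k, ht.1]
      · linarith [hr0 k]
    gcongr
  intro t ht
  rcases le_total t 0 with h | h
  · exact h0 t ⟨ht, h⟩
  · exact sub_eq_zero.1 (key t h)

/-- The derivative of a solution solves the variational equation. -/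
lemma deriv_varSolution (hf : ContDiff ℝ 1 fun ξ => f (ξ, α₀)) {x₁ : ℝ → Fin N → ℝ}
    (hx : IsSolution f r α₀ x₀) (hx₁ : ∀ t, x₁ t = f (hist r x₀ t, α₀)) :
    IsVarSolution f r α₀ x₀ R x₁ := by
  have hd : ∀ t, HasDerivAt x₁
      (fderiv ℝ (fun ξ => f (ξ, α₀)) (hist r x₀ t) (hist r x₁ t)) t := by
    intro t
    have h1 : HasDerivAt (fun t => hist r x₀ t) (hist r x₁ t) t := by
      rw [hasDerivAt_pi]
      intro k
      have h2 := hx (t - r k)
      rw [← hx₁] at h2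
      have h3 : HasDerivAt (fun s : ℝ => s - r k) 1 t := by
        simpa using (hasDerivAt_id t).sub_const (r k)
      have h4 := h2.scomp t h3
      exact h4.congr_deriv (one_smul ℝ _)
    have h2 := ((hf.differentiable (by norm_num)) (hist r x₀ t)).hasFDerivAt.comp_hasDerivAt t h1
    have h3 : x₁ = fun t => f (hist r x₀ t, α₀) := funext hx₁
    have h4 := h2.congr_of_eventuallyEq (f₁ := x₁) (Eventually.of_forall fun s => by
      rw [h3]; rfl)
    exact h4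
  exact ⟨(continuous_iff_continuousAt.2 fun t => (hd t).continuousAt).continuousOn,
    fun t _ => (hd t).hasDerivWithinAt⟩

end Uniqueness

/-! ### A maximum principle -/

section MaxPrinciple

lemma no_max {W W₁ : ℝ → ℝ} {W₂ t : ℝ} (h1 : ∀ᶠ s in 𝓝 t, HasDerivAt W (W₁ s) s)
    (h2 : HasDerivAt W₁ W₂ t) (hpos : 0 < W₂) (hmax : IsLocalMax W t) : False := by
  have hd1 : deriv W =ᶠ[𝓝 t] W₁ := h1.mono fun s hs => hs.deriv
  have hdd : deriv (deriv W) t = W₂ := by rw [hd1.deriv_eq, h2.deriv]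
  have hmin : IsLocalMin W t := by
    refine isLocalMin_of_deriv_deriv_pos (by rw [hdd]; exact hpos) hmax.deriv_eq_zero ?_
    exact h1.self_of_nhds.continuousAt
  have hconst : W =ᶠ[𝓝 t] fun _ => W t := by
    filter_upwards [hmax, hmin] with s a b
    exact le_antisymm a b
  have h3 : deriv W =ᶠ[𝓝 t] fun _ => 0 := by
    have := hconst.deriv
    refine this.trans (Eventually.of_forall fun s => ?_)
    simp
  rw [h3.deriv_eq] at hdd
  simp at hdd
  linarith

/-- Bounded solutions of `ξ'' = κ (ξ - ζ/2)` with `‖ζ(t)‖ ≤ ‖ξ(t - r)‖` vanish. -/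
lemma maxprin {ι : Type*} [Fintype ι] {ξ η ζ : ι → ℝ → ℂ} {κ P r : ℝ} (hκ : 0 < κ) (hP : 0 < P)
    (hr : 0 ≤ r) (h1 : ∀ i t, 0 < t → HasDerivAt (ξ i) (η i t) t)
    (h2 : ∀ i t, 0 < t → HasDerivAt (η i) (κ * (ξ i t - 1 / 2 * ζ i t)) t)
    (h3 : ∀ i t, 0 < t → ‖ζ i t‖ ≤ ‖ξ i (t - r)‖)
    (hper : ∀ t, -r ≤ t → ∑ i, ‖ξ i (t + P)‖ ^ 2 = ∑ i, ‖ξ i t‖ ^ 2)
    (hcont : ∀ i, ContinuousOn (ξ i) (Ici (-r))) : ∀ t, -r ≤ t → ∀ i, ξ i t = 0 := by
  set W : ℝ → ℝ := fun t => ∑ i, ‖ξ i t‖ ^ 2 with hW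
  have hW0 : ∀ t, 0 ≤ W t := fun t => Finset.sum_nonneg fun i _ => by positivity
  have hpern : ∀ (n : ℕ) t, -r ≤ t → W (t + n * P) = W t := by
    intro n
    induction n with
    | zero => intro t _; simp
    | succ n ih =>
      intro t ht
      have h4 : -r ≤ t + n * P := by
        have : 0 ≤ (n : ℝ) * P := by positivity
        linarith
      have h5 := hper (t + n * P) h4
      have e : t + ((n + 1 : ℕ) : ℝ) * P = t + n * P + P := by push_cast; ring
      rw [e]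
      exact h5.trans (ih t ht)
  have hWc : ContinuousOn W (Ici (-r)) := by
    apply continuousOn_finsetSum
    intro i _
    exact (hcont i).norm.pow 2
  obtain ⟨t₁, ht₁, hmax⟩ := isCompact_Icc.exists_isMaxOn (s := Icc (-r) (-r + P))
    ⟨-r, le_rfl, by linarith⟩ (hWc.mono fun x hx => hx.1)
  have hmax' : ∀ t, -r ≤ t → W t ≤ W t₁ := by
    intro t ht
    set n : ℕ := ⌊(t + r) / P⌋₊ with hn
    have h4 : (n : ℝ) ≤ (t + r) / P := Nat.floor_le (div_nonneg (by linarith) hP.le)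
    have h5 : (t + r) / P < n + 1 := Nat.lt_floor_add_one _
    rw [le_div_iff₀ hP] at h4
    rw [div_lt_iff₀ hP] at h5
    have h6 : t - n * P ∈ Icc (-r) (-r + P) := ⟨by linarith, by linarith⟩
    have h7 := hpern n (t - n * P) h6.1
    rw [sub_add_cancel] at h7
    rw [h7]
    exact hmax h6
  obtain ⟨n, hn⟩ := exists_nat_gt ((r + 1) / P)
  rw [div_lt_iff₀ hP] at hn
  set ts := t₁ + n * P with hts
  have hts0 : 0 < ts := by rw [hts]; linarith [ht₁.1]
  have hWts : W ts = W t₁ := hpern n t₁ ht₁.1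
  have hlocmax : IsLocalMax W ts := by
    have : ∀ᶠ s in 𝓝 ts, 0 < s := lt_mem_nhds hts0
    filter_upwards [this] with s hs
    rw [hWts]
    exact hmax' s (by linarith)
  have hd1 : ∀ s, 0 < s → HasDerivAt W (∑ i, 2 * inner ℝ (ξ i s) (η i s)) s := by
    intro s hs
    have : HasDerivAt (fun s => ∑ i, ‖ξ i s‖ ^ 2) (∑ i, 2 * inner ℝ (ξ i s) (η i s)) s :=
      HasDerivAt.fun_sum fun i _ => (h1 i s hs).norm_sq
    exact this
  have hd2 : HasDerivAt (fun s => ∑ i, 2 * inner ℝ (ξ i s) (η i s))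
      (∑ i, 2 * (inner ℝ (ξ i ts) (κ * (ξ i ts - 1 / 2 * ζ i ts)) +
        inner ℝ (η i ts) (η i ts))) ts :=
    HasDerivAt.fun_sum fun i _ => ((h1 i ts hts0).inner ℝ (h2 i ts hts0)).const_mul 2
  by_cases hm : W t₁ = 0
  · intro t ht i
    have h4 : W t = 0 := le_antisymm (by rw [← hm]; exact hmax' t ht) (hW0 t)
    have h5 := (Finset.sum_eq_zero_iff_of_nonneg (fun i _ => by positivity)).1 h4 i
      (Finset.mem_univ i)
    have h6 : ‖ξ i t‖ = 0 := by
      have : ‖ξ i t‖ ^ 2 = 0 := h5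
      exact pow_eq_zero_iff (by norm_num) |>.1 this
    exact norm_eq_zero.1 h6
  · exfalso
    have hmpos : 0 < W t₁ := lt_of_le_of_ne (hW0 t₁) (Ne.symm hm)
    refine no_max ((lt_mem_nhds hts0).mono hd1) hd2 ?_ hlocmax
    have hterm : ∀ i, κ * (3 / 2 * ‖ξ i ts‖ ^ 2 - 1 / 2 * ‖ξ i (ts - r)‖ ^ 2) ≤
        2 * (inner ℝ (ξ i ts) (κ * (ξ i ts - 1 / 2 * ζ i ts)) + inner ℝ (η i ts) (η i ts)) := by
      intro i
      have e1 : (κ : ℂ) * (ξ i ts - 1 / 2 * ζ i ts) = κ • (ξ i ts - (1 / 2 : ℝ) • ζ i ts) := by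
        rw [Complex.real_smul, Complex.real_smul]
        push_cast
        ring
      rw [e1, real_inner_smul_right, inner_sub_right, real_inner_smul_right,
        real_inner_self_eq_norm_sq, real_inner_self_eq_norm_sq]
      have e2 := real_inner_le_norm (ξ i ts) (ζ i ts)
      have e3 : ‖ξ i ts‖ * ‖ζ i ts‖ ≤ ‖ξ i ts‖ * ‖ξ i (ts - r)‖ := by
        have := h3 i ts hts0
        gcongr
      have e4 : ‖ξ i ts‖ * ‖ξ i (ts - r)‖ ≤ (‖ξ i ts‖ ^ 2 + ‖ξ i (ts - r)‖ ^ 2) / 2 := by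
        nlinarith [sq_nonneg (‖ξ i ts‖ - ‖ξ i (ts - r)‖)]
      have e5 : 0 ≤ ‖η i ts‖ ^ 2 := by positivity
      have e6 : κ * inner ℝ (ξ i ts) (ζ i ts) ≤
          κ * ((‖ξ i ts‖ ^ 2 + ‖ξ i (ts - r)‖ ^ 2) / 2) := by
        apply mul_le_mul_of_nonneg_left _ hκ.le
        linarith
      nlinarith
    have hsum := Finset.sum_le_sum fun i (_ : i ∈ Finset.univ) => hterm i
    rw [← Finset.mul_sum, Finset.sum_sub_distrib, ← Finset.mul_sum, ← Finset.mul_sum] at hsum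
    refine lt_of_lt_of_le ?_ hsum
    have h4 : ∑ i, ‖ξ i ts‖ ^ 2 = W t₁ := hWts
    have h5 : ∑ i, ‖ξ i (ts - r)‖ ^ 2 ≤ W t₁ := hmax' (ts - r) (by linarith)
    rw [h4]
    have : 0 < κ * (W t₁) := by positivity
    nlinarith

end MaxPrinciple

/-! ### The example -/

section Example

/-- The constant `∑ n c_n`. -/
noncomputable def cA : ℝ := ∑' n : ℕ, (n : ℝ) * cc n

/-- The constant `∑ n² c_n`. -/
noncomputable def cB : ℝ := ∑' n : ℕ, (n : ℝ) ^ 2 * cc n

/-- The right-hand side. -/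
noncomputable def ff (q : (Fin 2 → Fin 6 → ℝ) × ℝ) : Fin 6 → ℝ :=
  ![q.1 0 0 * (1 - q.1 0 0 ^ 2 - q.1 0 1 ^ 2) - q.2 * q.1 0 1,
    q.1 0 1 * (1 - q.1 0 0 ^ 2 - q.1 0 1 ^ 2) + q.2 * q.1 0 0,
    q.1 0 4 - cB * q.1 0 1,
    q.1 0 5 - cA * (q.1 0 1 * (1 - q.1 0 0 ^ 2 - q.1 0 1 ^ 2) + q.2 * q.1 0 0),
    q.2 ^ 2 * (q.1 0 2 - 1 / 2 * (q.1 0 0 * q.1 1 2 - q.1 0 1 * (q.1 1 3 + cA * q.1 1 1)) - 1) +
      cB * (q.1 0 1 * (1 - q.1 0 0 ^ 2 - q.1 0 1 ^ 2) + q.2 * q.1 0 0),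
    q.2 ^ 2 * ((q.1 0 3 + cA * q.1 0 1) -
      1 / 2 * (q.1 0 0 * (q.1 1 3 + cA * q.1 1 1) + q.1 0 1 * q.1 1 2))]

/-- The delays: `r_0 = 0` and `r_1 = 2π`. -/
noncomputable def rr : Fin 2 → ℝ := ![0, 2 * Real.pi]

lemma ff_contDiff {n : WithTop ℕ∞} : ContDiff ℝ n ff := by
  rw [contDiff_pi]
  intro i
  fin_cases i <;> simp only [ff] <;> simp <;> fun_prop

lemma ff_analytic : AnalyticOnNhd ℝ ff univ := by
  rw [← contDiff_omega_iff_analyticOnNhd]
  exact ff_contDiff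

/-- The complex number `x`. -/
noncomputable def cx (Y : Fin 6 → ℝ) : ℂ := ⟨Y 2, Y 3 + cA * Y 1⟩

/-- The complex number `y`. -/
noncomputable def cy (Y : Fin 6 → ℝ) : ℂ := ⟨Y 4 - cB * Y 1, Y 5⟩

lemma hasDerivWithinAt_mk {a b : ℝ → ℝ} {a' b' t : ℝ} {S : Set ℝ} (ha : HasDerivWithinAt a a' S t)
    (hb : HasDerivWithinAt b b' S t) :
    HasDerivWithinAt (fun s => (⟨a s, b s⟩ : ℂ)) ⟨a', b'⟩ S t := by
  have h1 := ha.ofReal_comp.add (hb.ofReal_comp.mul_const Complex.I)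
  have e : (fun s => (⟨a s, b s⟩ : ℂ)) = fun s => (a s : ℂ) + b s * Complex.I := by
    funext s
    apply Complex.ext <;> simp
  rw [e]
  refine h1.congr_deriv ?_
  apply Complex.ext <;> simp

lemma hasDerivAt_mk {a b : ℝ → ℝ} {a' b' t : ℝ} (ha : HasDerivAt a a' t)
    (hb : HasDerivAt b b' t) : HasDerivAt (fun s => (⟨a s, b s⟩ : ℂ)) ⟨a', b'⟩ t := by
  rw [← hasDerivWithinAt_univ] at ha hb ⊢
  exact hasDerivWithinAt_mk ha hb

lemma hasDerivAt_re {x : ℝ → ℂ} {x' : ℂ} {t : ℝ} (h : HasDerivAt x x' t) :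
    HasDerivAt (fun s => (x s).re) x'.re t :=
  Complex.reCLM.hasFDerivAt.comp_hasDerivAt t h

lemma hasDerivAt_im {x : ℝ → ℂ} {x' : ℂ} {t : ℝ} (h : HasDerivAt x x' t) :
    HasDerivAt (fun s => (x s).im) x'.im t :=
  Complex.imCLM.hasFDerivAt.comp_hasDerivAt t h

lemma sol_decode {α : ℝ} {X : ℝ → Fin 6 → ℝ} (h : IsSolution ff rr α X) (t : ℝ) :
    HasDerivAt (fun s => X s 0) (X t 0 * (1 - X t 0 ^ 2 - X t 1 ^ 2) - α * X t 1) t ∧
    HasDerivAt (fun s => X s 1) (X t 1 * (1 - X t 0 ^ 2 - X t 1 ^ 2) + α * X t 0) t ∧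
    HasDerivAt (fun s => cx (X s)) (cy (X t)) t ∧
    HasDerivAt (fun s => cy (X s)) ((α : ℂ) ^ 2 *
      (cx (X t) - 1 / 2 * ((⟨X t 0, X t 1⟩ : ℂ) * cx (X (t - 2 * Real.pi))) - 1)) t := by
  have h1 := hasDerivAt_pi.1 (h t)
  have h0' : ∀ k, hist rr X t 0 k = X t k := fun k => by simp [hist, rr]
  have h1' : ∀ k, hist rr X t 1 k = X (t - 2 * Real.pi) k := fun k => by simp [hist, rr]
  have e0 := h1 0
  have e1 := h1 1
  have e2 := h1 2
  have e3 := h1 3
  have e4 := h1 4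
  have e5 := h1 5
  simp only [ff, h0', h1'] at e0 e1 e2 e3 e4 e5
  simp only [Fin.isValue, Matrix.cons_val] at e0 e1 e2 e3 e4 e5
  refine ⟨e0, e1, ?_, ?_⟩
  · have h2 := hasDerivAt_mk e2 (e3.fun_add (e1.const_mul cA))
    refine h2.congr_deriv ?_
    apply Complex.ext
    · simp [cy]
    · simp [cy]
  · have h2 := hasDerivAt_mk (e4.fun_sub (e1.const_mul cB)) e5
    refine h2.congr_deriv ?_
    apply Complex.ext
    · simp [cx, sq]
    · simp [cx, sq]

/-- Assembling a solution. -/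
lemma sol_encode {α : ℝ} {u v : ℝ → ℝ} {x y : ℝ → ℂ}
    (hu : ∀ t, HasDerivAt u (u t * (1 - u t ^ 2 - v t ^ 2) - α * v t) t)
    (hv : ∀ t, HasDerivAt v (v t * (1 - u t ^ 2 - v t ^ 2) + α * u t) t)
    (hx : ∀ t, HasDerivAt x (y t) t)
    (hy : ∀ t, HasDerivAt y ((α : ℂ) ^ 2 *
      (x t - 1 / 2 * ((⟨u t, v t⟩ : ℂ) * x (t - 2 * Real.pi)) - 1)) t) :
    IsSolution ff rr α fun t => ![u t, v t, (x t).re, (x t).im - cA * v t,
      (y t).re + cB * v t, (y t).im] := by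
  intro t
  rw [hasDerivAt_pi]
  intro i
  have hxr := hasDerivAt_re (hx t)
  have hxi := hasDerivAt_im (hx t)
  have hyr := hasDerivAt_re (hy t)
  have hyi := hasDerivAt_im (hy t)
  fin_cases i
  · refine (hu t).congr_deriv ?_
    simp [ff, hist, rr]
  · refine (hv t).congr_deriv ?_
    simp [ff, hist, rr]
  · refine hxr.congr_deriv ?_
    simp [ff, hist, rr]
  · refine (hxi.fun_sub ((hv t).const_mul cA)).congr_deriv ?_
    simp [ff, hist, rr]
  · refine (hyr.fun_add ((hv t).const_mul cB)).congr_deriv ?_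
    simp [ff, hist, rr, sq]
  · refine hyi.congr_deriv ?_
    simp [ff, hist, rr, sq]

/-- The explicit derivative of `ff` (with `α = 1`). -/
noncomputable def DD (a d b e : Fin 6 → ℝ) : Fin 6 → ℝ :=
  ![b 0 * (1 - a 0 ^ 2 - a 1 ^ 2) - a 0 * (2 * a 0 * b 0 + 2 * a 1 * b 1) - b 1,
    b 1 * (1 - a 0 ^ 2 - a 1 ^ 2) - a 1 * (2 * a 0 * b 0 + 2 * a 1 * b 1) + b 0,
    b 4 - cB * b 1,
    b 5 - cA * (b 1 * (1 - a 0 ^ 2 - a 1 ^ 2) - a 1 * (2 * a 0 * b 0 + 2 * a 1 * b 1) + b 0),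
    (b 2 - 1 / 2 * (b 0 * d 2 + a 0 * e 2 - b 1 * (d 3 + cA * d 1) - a 1 * (e 3 + cA * e 1))) +
      cB * (b 1 * (1 - a 0 ^ 2 - a 1 ^ 2) - a 1 * (2 * a 0 * b 0 + 2 * a 1 * b 1) + b 0),
    (b 3 + cA * b 1) - 1 / 2 * (b 0 * (d 3 + cA * d 1) + a 0 * (e 3 + cA * e 1) +
      b 1 * d 2 + a 1 * e 2)]

lemma poly_deriv (k₀ k₁ k₂ k₃ : ℝ) :
    HasDerivAt (fun s : ℝ => k₀ + k₁ * s + k₂ * s ^ 2 + k₃ * s ^ 3) k₁ 0 := by
  have h1 : HasDerivAt (fun s : ℝ => s) 1 0 := hasDerivAt_id 0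
  have h2 := (((h1.const_mul k₁).const_add k₀).fun_add ((h1.fun_pow 2).const_mul k₂)).fun_add
    ((h1.fun_pow 3).const_mul k₃)
  refine h2.congr_deriv ?_
  simp

lemma fderiv_ff (ξ η : Fin 2 → Fin 6 → ℝ) :
    fderiv ℝ (fun ξ => ff (ξ, 1)) ξ η = DD (ξ 0) (ξ 1) (η 0) (η 1) := by
  have hc : ContDiff ℝ 1 fun ξ : Fin 2 → Fin 6 → ℝ => ff (ξ, 1) :=
    ff_contDiff.comp (contDiff_id.prodMk contDiff_const)
  have h1 := ((hc.differentiable (by norm_num)) ξ).hasFDerivAt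
  have h2 : HasDerivAt (fun s : ℝ => ff (ξ + s • η, 1))
      (fderiv ℝ (fun ξ => ff (ξ, 1)) ξ η) 0 := by
    have h3 : HasDerivAt (fun s : ℝ => ξ + s • η) η 0 := by
      have := ((hasDerivAt_id (0 : ℝ)).smul_const η).const_add ξ
      simpa using this
    have h4 : HasFDerivAt (fun ξ => ff (ξ, 1)) (fderiv ℝ (fun ξ => ff (ξ, 1)) ξ)
        (ξ + (0 : ℝ) • η) := by simpa using h1
    exact h4.comp_hasDerivAt (0 : ℝ) h3
  have h3 := hasDerivAt_pi.1 h2
  funext i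
  have h4 : HasDerivAt (fun s : ℝ => ff (ξ + s • η, 1) i) (DD (ξ 0) (ξ 1) (η 0) (η 1) i) 0 := by
    fin_cases i
    · refine (poly_deriv (ξ 0 0 * (1 - ξ 0 0 ^ 2 - ξ 0 1 ^ 2) - ξ 0 1) _
        (-(η 0 0 * (2 * ξ 0 0 * η 0 0 + 2 * ξ 0 1 * η 0 1)) - ξ 0 0 * (η 0 0 ^ 2 + η 0 1 ^ 2))
        (-(η 0 0 * (η 0 0 ^ 2 + η 0 1 ^ 2)))).congr_of_eventuallyEq
          (Eventually.of_forall fun s => ?_)
      simp [ff, DD]
      ring
    · refine (poly_deriv (ξ 0 1 * (1 - ξ 0 0 ^ 2 - ξ 0 1 ^ 2) + ξ 0 0) _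
        (-(η 0 1 * (2 * ξ 0 0 * η 0 0 + 2 * ξ 0 1 * η 0 1)) - ξ 0 1 * (η 0 0 ^ 2 + η 0 1 ^ 2))
        (-(η 0 1 * (η 0 0 ^ 2 + η 0 1 ^ 2)))).congr_of_eventuallyEq
          (Eventually.of_forall fun s => ?_)
      simp [ff, DD]
      ring
    · refine (poly_deriv (ξ 0 4 - cB * ξ 0 1) _ 0 0).congr_of_eventuallyEq
          (Eventually.of_forall fun s => ?_)
      simp [ff, DD]
      ring
    · refine (poly_deriv (ξ 0 5 - cA * (ξ 0 1 * (1 - ξ 0 0 ^ 2 - ξ 0 1 ^ 2) + ξ 0 0)) _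
        (-cA * (-(η 0 1 * (2 * ξ 0 0 * η 0 0 + 2 * ξ 0 1 * η 0 1)) -
          ξ 0 1 * (η 0 0 ^ 2 + η 0 1 ^ 2)))
        (-cA * (-(η 0 1 * (η 0 0 ^ 2 + η 0 1 ^ 2))))).congr_of_eventuallyEq
          (Eventually.of_forall fun s => ?_)
      simp [ff, DD]
      ring
    · refine (poly_deriv ((ξ 0 2 - 1 / 2 * (ξ 0 0 * ξ 1 2 - ξ 0 1 * (ξ 1 3 + cA * ξ 1 1)) - 1) +
        cB * (ξ 0 1 * (1 - ξ 0 0 ^ 2 - ξ 0 1 ^ 2) + ξ 0 0)) _
        (-(1 / 2 * (η 0 0 * η 1 2 - η 0 1 * (η 1 3 + cA * η 1 1))) +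
          cB * (-(η 0 1 * (2 * ξ 0 0 * η 0 0 + 2 * ξ 0 1 * η 0 1)) -
          ξ 0 1 * (η 0 0 ^ 2 + η 0 1 ^ 2)))
        (cB * (-(η 0 1 * (η 0 0 ^ 2 + η 0 1 ^ 2))))).congr_of_eventuallyEq
          (Eventually.of_forall fun s => ?_)
      simp [ff, DD]
      ring
    · refine (poly_deriv ((ξ 0 3 + cA * ξ 0 1) -
        1 / 2 * (ξ 0 0 * (ξ 1 3 + cA * ξ 1 1) + ξ 0 1 * ξ 1 2)) _
        (-(1 / 2 * (η 0 0 * (η 1 3 + cA * η 1 1) + η 0 1 * η 1 2))) 0).congr_of_eventuallyEq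
          (Eventually.of_forall fun s => ?_)
      simp [ff, DD]
      ring
  exact (h3 i).unique h4

/-! ### The explicit periodic solutions -/

/-- The exponentials. -/
noncomputable def EE (α t : ℝ) (n : ℕ) : ℂ :=
  Complex.exp (Complex.I * ((α * (n * t - Real.pi * (n * ((n : ℝ) - 1))) : ℝ) : ℂ))

lemma norm_EE (α t : ℝ) (n : ℕ) : ‖EE α t n‖ = 1 := norm_exp_I _

/-- Series in the exponentials. -/
noncomputable def TT (a : ℕ → ℂ) (α t : ℝ) : ℂ := ∑' n, a n * EE α t n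

lemma summable_TT {a : ℕ → ℂ} (ha : Summable fun n => ‖a n‖) (α t : ℝ) :
    Summable fun n => a n * EE α t n := by
  refine Summable.of_norm (ha.congr fun n => ?_)
  rw [norm_mul, norm_EE, mul_one]

lemma hasDerivAt_TT {a : ℕ → ℂ} (ha : Summable fun n => ‖a n‖)
    (ha1 : Summable fun n : ℕ => ‖a n‖ * n) (α t : ℝ) :
    HasDerivAt (TT a α) (α * TT (fun n => a n * (Complex.I * n)) α t) t := by
  have hg : ∀ (n : ℕ) (y : ℝ), HasDerivAt (fun s : ℝ => a n * EE α s n)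
      (a n * (Complex.I * (α * n)) * EE α y n) y := by
    intro n y
    have h3 : HasDerivAt (fun s : ℝ => α * (n * s - Real.pi * (n * ((n : ℝ) - 1)))) (α * n) y := by
      have := (((hasDerivAt_id y).const_mul (n : ℝ)).sub_const
        (Real.pi * (n * ((n : ℝ) - 1)))).const_mul α
      simpa using this
    have h4 := ((h3.ofReal_comp.const_mul Complex.I).cexp).const_mul (a n)
    refine h4.congr_deriv ?_
    unfold EE
    push_cast
    ring
  have h := hasDerivAt_tsum (𝕜 := ℝ) (u := fun n : ℕ => |α| * (‖a n‖ * n)) (y₀ := 0)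
    (ha1.mul_left |α|) hg (fun n y => by
      rw [norm_mul, norm_EE, mul_one, norm_mul, norm_mul, Complex.norm_I, one_mul, norm_mul,
        Complex.norm_real, Complex.norm_natCast, Real.norm_eq_abs]
      exact le_of_eq (by ring)) (summable_TT ha α 0) t
  refine h.congr_deriv ?_
  unfold TT
  rw [← tsum_mul_left]
  refine tsum_congr fun n => ?_
  ring

lemma continuous_TT {a : ℕ → ℂ} (ha : Summable fun n => ‖a n‖) :
    Continuous fun q : ℝ × ℝ => TT a q.1 q.2 := by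
  unfold TT
  refine continuous_tsum (u := fun n => ‖a n‖) (fun n => ?_) ha fun n q => ?_
  · unfold EE
    fun_prop
  · rw [norm_mul, norm_EE, mul_one]

lemma TT_period {a : ℕ → ℂ} {α P : ℝ} {k : ℤ} (hk : α * P = k * (2 * Real.pi)) (t : ℝ) :
    TT a α (t + P) = TT a α t := by
  unfold TT
  refine tsum_congr fun n => ?_
  congr 1
  unfold EE
  rw [Complex.exp_eq_exp_iff_exists_int]
  refine ⟨n * k, ?_⟩
  have e : α * (n * (t + P) - Real.pi * (n * ((n : ℝ) - 1))) =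
      α * (n * t - Real.pi * (n * ((n : ℝ) - 1))) + n * (k * (2 * Real.pi)) := by
    rw [← hk]; ring
  rw [e]
  push_cast
  ring

lemma norm_cc (n : ℕ) : ‖(cc n : ℂ)‖ = cc n := by
  rw [Complex.norm_real, Real.norm_eq_abs, abs_of_pos (cc_pos n)]

/-- The weights `c_n (i n)^k`. -/
noncomputable def aa (k : ℕ) (n : ℕ) : ℂ := (cc n : ℂ) * (Complex.I * n) ^ k

lemma norm_aa (k n : ℕ) : ‖aa k n‖ = (n : ℝ) ^ k * cc n := by
  rw [aa, norm_mul, norm_cc, norm_pow, norm_mul, Complex.norm_I, one_mul, Complex.norm_natCast,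
    mul_comm]

lemma summable_aa (k : ℕ) : Summable fun n => ‖aa k n‖ :=
  (summable_cc k).congr fun n => (norm_aa k n).symm

lemma summable_aa' (k : ℕ) : Summable fun n : ℕ => ‖aa k n‖ * n := by
  refine (summable_cc (k + 1)).congr fun n => ?_
  rw [norm_aa, pow_succ]
  ring

lemma hasDerivAt_aa (k : ℕ) (α t : ℝ) : HasDerivAt (TT (aa k) α) (α * TT (aa (k + 1)) α t) t := by
  have h := hasDerivAt_TT (summable_aa k) (summable_aa' k) α t
  refine h.congr_deriv ?_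
  congr 3
  funext n
  unfold aa
  rw [pow_succ]
  ring

lemma EE_zero (α t : ℝ) : EE α t 0 = 1 := by
  unfold EE
  simp

/-- The delay identity. -/
lemma EE_delay (α t : ℝ) (n : ℕ) :
    Complex.exp (Complex.I * (α * t : ℝ)) * EE α (t - 2 * Real.pi) n = EE α t (n + 1) := by
  unfold EE
  rw [← Complex.exp_add]
  congr 1
  push_cast
  ring

/-- The equation for the series. -/
lemma TT_eq (α t : ℝ) : TT (aa 2) α t = TT (aa 0) α t -
    1 / 2 * (Complex.exp (Complex.I * (α * t : ℝ)) * TT (aa 0) α (t - 2 * Real.pi)) - 1 := by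
  have h1 : Summable fun n => aa 0 n * EE α t n := summable_TT (summable_aa 0) α t
  have h2 : Summable fun n => aa 2 n * EE α t n := summable_TT (summable_aa 2) α t
  have e1 : TT (aa 0) α t = 1 + ∑' n, aa 0 (n + 1) * EE α t (n + 1) := by
    unfold TT
    rw [h1.tsum_eq_zero_add, EE_zero]
    simp [aa, cc]
  have e2 : TT (aa 2) α t = ∑' n, aa 2 (n + 1) * EE α t (n + 1) := by
    unfold TT
    rw [h2.tsum_eq_zero_add]
    simp [aa]
  have h1' : Summable fun n => aa 0 (n + 1) * EE α t (n + 1) := (summable_nat_add_iff 1).2 h1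
  have h2' : Summable fun n => aa 2 (n + 1) * EE α t (n + 1) := (summable_nat_add_iff 1).2 h2
  have e3 : 1 / 2 * (Complex.exp (Complex.I * (α * t : ℝ)) * TT (aa 0) α (t - 2 * Real.pi)) =
      ∑' n, (aa 0 (n + 1) * EE α t (n + 1) - aa 2 (n + 1) * EE α t (n + 1)) := by
    unfold TT
    rw [← tsum_mul_left, ← tsum_mul_left]
    refine tsum_congr fun n => ?_
    have h3 : Complex.exp (Complex.I * (α * t : ℝ)) * (aa 0 n * EE α (t - 2 * Real.pi) n) =
        aa 0 n * EE α t (n + 1) := by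
      rw [← EE_delay]; ring
    rw [h3]
    have h4 : (1 + ((n : ℂ) + 1) ^ 2) * (cc (n + 1) : ℂ) = 1 / 2 * (cc n : ℂ) := by
      have := congrArg (fun x : ℝ => (x : ℂ)) (cc_succ n)
      push_cast at this
      exact this
    have h5 : aa 0 (n + 1) * EE α t (n + 1) - aa 2 (n + 1) * EE α t (n + 1) =
        ((1 + ((n : ℂ) + 1) ^ 2) * (cc (n + 1) : ℂ)) * EE α t (n + 1) := by
      unfold aa
      rw [pow_zero, mul_one, mul_pow, Complex.I_sq]
      push_cast
      ring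
    rw [h5, h4]
    unfold aa
    ring
  rw [e1, e2, e3, h1'.tsum_sub h2']
  ring

lemma GG_eq (α : ℝ) : GG α = TT (aa 0) α 0 := by
  unfold GG SS TT
  refine tsum_congr fun n => ?_
  unfold aa EE
  rw [pow_zero, mul_one]
  congr 3
  push_cast
  ring

/-- The periodic solution for the parameter `α`. -/
noncomputable def XX (α t : ℝ) : Fin 6 → ℝ :=
  ![Real.cos (α * t), Real.sin (α * t), (TT (aa 0) α t).re,
    (TT (aa 0) α t).im - cA * Real.sin (α * t), (α * TT (aa 1) α t).re + cB * Real.sin (α * t),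
    (α * TT (aa 1) α t).im]

lemma exp_mk (s : ℝ) : Complex.exp (Complex.I * (s : ℂ)) = ⟨Real.cos s, Real.sin s⟩ := by
  rw [mul_comm]
  apply Complex.ext
  · rw [Complex.exp_ofReal_mul_I_re]
  · rw [Complex.exp_ofReal_mul_I_im]

lemma XX_sol (α : ℝ) : IsSolution ff rr α (XX α) := by
  have hc : ∀ t, HasDerivAt (fun t => Real.cos (α * t)) (-Real.sin (α * t) * α) t := fun t => by
    have h1 : HasDerivAt (fun t : ℝ => α * t) α t := by simpa using (hasDerivAt_id t).const_mul α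
    exact h1.cos
  have hs : ∀ t, HasDerivAt (fun t => Real.sin (α * t)) (Real.cos (α * t) * α) t := fun t => by
    have h1 : HasDerivAt (fun t : ℝ => α * t) α t := by simpa using (hasDerivAt_id t).const_mul α
    exact h1.sin
  refine sol_encode (u := fun t => Real.cos (α * t)) (v := fun t => Real.sin (α * t))
    (x := TT (aa 0) α) (y := fun t => α * TT (aa 1) α t) ?_ ?_ ?_ ?_
  · intro t
    refine (hc t).congr_deriv ?_
    have := Real.sin_sq_add_cos_sq (α * t)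
    have e : 1 - Real.cos (α * t) ^ 2 - Real.sin (α * t) ^ 2 = 0 := by linarith
    rw [e]
    ring
  · intro t
    refine (hs t).congr_deriv ?_
    have := Real.sin_sq_add_cos_sq (α * t)
    have e : 1 - Real.cos (α * t) ^ 2 - Real.sin (α * t) ^ 2 = 0 := by linarith
    rw [e]
    ring
  · intro t
    exact hasDerivAt_aa 0 α t
  · intro t
    refine ((hasDerivAt_aa 1 α t).const_mul (α : ℂ)).congr_deriv ?_
    rw [TT_eq, exp_mk]
    ring

lemma XX_periodic {α P : ℝ} {k : ℤ} (hk : α * P = k * (2 * Real.pi)) :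
    Function.Periodic (XX α) P := by
  intro t
  unfold XX
  have h1 : Real.cos (α * (t + P)) = Real.cos (α * t) := by
    rw [mul_add, hk, Real.cos_add_int_mul_two_pi]
  have h2 : Real.sin (α * (t + P)) = Real.sin (α * t) := by
    rw [mul_add, hk, Real.sin_add_int_mul_two_pi]
  rw [h1, h2, TT_period hk, TT_period hk]

lemma EE_one_zero (n : ℕ) : EE 1 0 n = 1 := by
  unfold EE
  rw [Complex.exp_eq_one_iff]
  have heven : ∃ j : ℤ, (n : ℝ) * ((n : ℝ) - 1) = 2 * j := by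
    rcases Nat.even_or_odd n with ⟨a, ha⟩ | ⟨a, ha⟩
    · refine ⟨a * (2 * a - 1), ?_⟩
      rw [ha]; push_cast; ring
    · refine ⟨a * (2 * a + 1), ?_⟩
      rw [ha]; push_cast; ring
  obtain ⟨j, hj⟩ := heven
  refine ⟨-j, ?_⟩
  rw [hj]
  push_cast
  ring

lemma TT_one_zero_1 : TT (aa 1) 1 0 = Complex.I * (cA : ℂ) := by
  unfold TT cA
  rw [Complex.ofReal_tsum, ← tsum_mul_left]
  refine tsum_congr fun n => ?_
  rw [EE_one_zero]
  unfold aa
  push_cast
  ring

lemma TT_one_zero_2 : TT (aa 2) 1 0 = -(cB : ℂ) := by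
  unfold TT cB
  rw [Complex.ofReal_tsum, ← tsum_neg]
  refine tsum_congr fun n => ?_
  rw [EE_one_zero]
  unfold aa
  rw [mul_pow, Complex.I_sq]
  push_cast
  ring

/-- The derivative of the periodic solution at `α = 1`, `t = 0`. -/
lemma XX_deriv_zero : deriv (XX 1) 0 = ![0, 1, 0, 0, 0, 0] := by
  have h : HasDerivAt (XX 1) (![0, 1, 0, 0, 0, 0] : Fin 6 → ℝ) 0 := by
    rw [hasDerivAt_pi]
    intro i
    have h1 : HasDerivAt (fun t : ℝ => (1 : ℝ) * t) 1 0 := by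
      simpa using (hasDerivAt_id (0 : ℝ)).const_mul 1
    have hs : HasDerivAt (fun t : ℝ => Real.sin (1 * t)) 1 0 := by
      have := h1.sin
      simpa using this
    have hx := hasDerivAt_aa 0 1 0
    have hy := (hasDerivAt_aa 1 1 0).const_mul ((1 : ℝ) : ℂ)
    rw [zero_add, TT_one_zero_1] at hx
    rw [show 1 + 1 = 2 from rfl, TT_one_zero_2] at hy
    fin_cases i
    · have := h1.cos
      simpa [XX] using this
    · simpa [XX] using hs
    · refine (hasDerivAt_re hx).congr_deriv ?_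
      simp
    · refine ((hasDerivAt_im hx).fun_sub (hs.const_mul cA)).congr_deriv ?_
      simp
    · refine ((hasDerivAt_re hy).fun_add (hs.const_mul cB)).congr_deriv ?_
      simp
    · refine (hasDerivAt_im hy).congr_deriv ?_
      simp
  exact h.deriv

lemma XX_continuous : Continuous fun q : ℝ × ℝ => XX q.1 q.2 := by
  have h0 := continuous_TT (summable_aa 0)
  have h1 := continuous_TT (summable_aa 1)
  rw [continuous_pi_iff]
  intro i
  have h1' : Continuous fun q : ℝ × ℝ => (q.1 : ℂ) * TT (aa 1) q.1 q.2 :=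
    (Complex.continuous_ofReal.comp continuous_fst).mul h1
  have hsin : Continuous fun q : ℝ × ℝ => Real.sin (q.1 * q.2) := by fun_prop
  have hcos : Continuous fun q : ℝ × ℝ => Real.cos (q.1 * q.2) := by fun_prop
  fin_cases i
  · exact hcos
  · exact hsin
  · exact Complex.continuous_re.comp h0
  · exact (Complex.continuous_im.comp h0).sub (hsin.const_mul cA)
  · exact (Complex.continuous_re.comp h1').add (hsin.const_mul cB)
  · exact Complex.continuous_im.comp h1'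

lemma XX_isPeriodicSolution : IsPeriodicSolution ff rr 1 (XX 1) (2 * Real.pi) := by
  refine ⟨XX_sol 1, by positivity, XX_periodic (k := 1) (by push_cast; ring), ?_, ?_⟩
  · intro q hq hper
    have h1 := congrFun (hper 0) 0
    simp only [XX, zero_add, mul_zero, Real.cos_zero, one_mul, Matrix.cons_val_zero] at h1
    obtain ⟨n, hn⟩ := (Real.cos_eq_one_iff q).1 h1
    have hn1 : 0 < n := by
      by_contra hcon
      push Not at hcon
      have : (n : ℝ) ≤ 0 := by exact_mod_cast hcon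
      nlinarith [Real.pi_pos]
    have : (1 : ℝ) ≤ n := by exact_mod_cast hn1
    nlinarith [Real.pi_pos]
  · refine ⟨0, Real.pi, fun h => ?_⟩
    have h1 := congrFun h 0
    simp [XX] at h1
    norm_num at h1

/-! ### Hyperbolicity -/

/-- Decoding of the variational equation. -/
lemma var_decode {y : ℝ → Fin 6 → ℝ} (hy : IsVarSolution ff rr 1 (XX 1) (2 * Real.pi) y) {t : ℝ}
    (ht : 0 ≤ t) (i : Fin 6) : HasDerivWithinAt (fun s => y s i)
      (DD (XX 1 t) (XX 1 (t - 2 * Real.pi)) (y t) (y (t - 2 * Real.pi)) i) (Ici 0) t := by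
  have h1 := hasDerivWithinAt_pi.1 (hy.2 t ht) i
  rw [fderiv_ff] at h1
  have e0 : ∀ x : ℝ → Fin 6 → ℝ, hist rr x t 0 = x t := fun x => by simp [hist, rr]
  have e1 : ∀ x : ℝ → Fin 6 → ℝ, hist rr x t 1 = x (t - 2 * Real.pi) := fun x => by
    simp [hist, rr]
  rw [e0, e0, e1, e1] at h1
  exact h1

lemma XX_one_zero (t : ℝ) : XX 1 t 0 = Real.cos t := by simp [XX]

lemma XX_one_one (t : ℝ) : XX 1 t 1 = Real.sin t := by simp [XX]

/-- The radial component. -/
noncomputable def ra (y : ℝ → Fin 6 → ℝ) (t : ℝ) : ℝ := Real.cos t * y t 0 + Real.sin t * y t 1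

/-- The tangential component. -/
noncomputable def tb (y : ℝ → Fin 6 → ℝ) (t : ℝ) : ℝ := -Real.sin t * y t 0 + Real.cos t * y t 1

lemma deriv_ra {y : ℝ → Fin 6 → ℝ} (hy : IsVarSolution ff rr 1 (XX 1) (2 * Real.pi) y) {t : ℝ}
    (ht : 0 ≤ t) : HasDerivWithinAt (ra y) (-2 * ra y t) (Ici 0) t := by
  have h0 := var_decode hy ht 0
  have h1 := var_decode hy ht 1
  have hc := (Real.hasDerivAt_cos t).hasDerivWithinAt (s := Ici 0)
  have hs := (Real.hasDerivAt_sin t).hasDerivWithinAt (s := Ici 0)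
  have h2 := (hc.fun_mul h0).fun_add (hs.fun_mul h1)
  unfold ra
  refine h2.congr_deriv ?_
  have e : 1 - Real.cos t ^ 2 - Real.sin t ^ 2 = 0 := by
    have := Real.sin_sq_add_cos_sq t
    linarith
  simp only [DD, XX_one_zero, XX_one_one, e, Matrix.cons_val_zero, Matrix.cons_val_one]
  have e2 : Real.cos t ^ 2 = 1 - Real.sin t ^ 2 := by linarith
  linear_combination (-2 * Real.cos t * y t 0 - 2 * Real.sin t * y t 1) * (e2)

lemma deriv_tb {y : ℝ → Fin 6 → ℝ} (hy : IsVarSolution ff rr 1 (XX 1) (2 * Real.pi) y) {t : ℝ}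
    (ht : 0 ≤ t) : HasDerivWithinAt (tb y) 0 (Ici 0) t := by
  have h0 := var_decode hy ht 0
  have h1 := var_decode hy ht 1
  have hc := (Real.hasDerivAt_cos t).hasDerivWithinAt (s := Ici 0)
  have hs := (Real.hasDerivAt_sin t).hasDerivWithinAt (s := Ici 0)
  have h2 := (hs.fun_neg.fun_mul h0).fun_add (hc.fun_mul h1)
  unfold tb
  refine h2.congr_deriv ?_
  have e : 1 - Real.cos t ^ 2 - Real.sin t ^ 2 = 0 := by
    have := Real.sin_sq_add_cos_sq t
    linarith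
  simp only [DD, XX_one_zero, XX_one_one, e, Matrix.cons_val_zero, Matrix.cons_val_one]
  ring

lemma const_of_deriv {g g' : ℝ → ℝ} (hg : ∀ t, 0 ≤ t → HasDerivWithinAt g (g' t) (Ici 0) t)
    (h0 : ∀ t, 0 ≤ t → g' t = 0) : ∀ t, 0 ≤ t → g t = g 0 := by
  intro t ht
  refine constant_of_has_deriv_right_zero (a := 0) (b := t) (f := g) ?_ ?_ t ⟨ht, le_rfl⟩
  · intro x hx
    exact ((hg x hx.1).continuousWithinAt).mono fun s hs => hs.1
  · intro x hx
    have := (hg x hx.1).mono (Ici_subset_Ici.2 hx.1)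
    rwa [h0 x hx.1] at this

lemma ra_eq {y : ℝ → Fin 6 → ℝ} (hy : IsVarSolution ff rr 1 (XX 1) (2 * Real.pi) y) {t : ℝ}
    (ht : 0 ≤ t) : ra y t = Real.exp (-(2 * t)) * ra y 0 := by
  have h := const_of_deriv (g := fun s => Real.exp (2 * s) * ra y s)
    (g' := fun s => Real.exp (2 * s) * 2 * ra y s + Real.exp (2 * s) * (-2 * ra y s))
    (fun s hs => by
      have h1 : HasDerivAt (fun s : ℝ => 2 * s) 2 s := by simpa using (hasDerivAt_id s).const_mul 2
      exact h1.exp.hasDerivWithinAt.fun_mul (deriv_ra hy hs)) (fun s _ => by ring) t ht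
  simp only [mul_zero, Real.exp_zero, one_mul] at h
  rw [← h, ← mul_assoc, ← Real.exp_add]
  simp

lemma tb_eq {y : ℝ → Fin 6 → ℝ} (hy : IsVarSolution ff rr 1 (XX 1) (2 * Real.pi) y) {t : ℝ}
    (ht : 0 ≤ t) : tb y t = y 0 1 := by
  have h := const_of_deriv (g := tb y) (g' := fun _ => 0) (fun s hs => deriv_tb hy hs)
    (fun _ _ => rfl) t ht
  rw [h]
  simp [tb]

/-- The key rigidity statement. -/
lemma rot_zero {y₁ y₂ : ℝ → Fin 6 → ℝ} (h₁ : IsVarSolution ff rr 1 (XX 1) (2 * Real.pi) y₁)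
    (h₂ : IsVarSolution ff rr 1 (XX 1) (2 * Real.pi) y₂) {a b : ℝ} (hab : a ^ 2 + b ^ 2 = 1)
    (hr₁ : ∀ t, -(2 * Real.pi) ≤ t → y₁ (2 * Real.pi + t) = a • y₁ t - b • y₂ t)
    (hr₂ : ∀ t, -(2 * Real.pi) ≤ t → y₂ (2 * Real.pi + t) = b • y₁ t + a • y₂ t)
    (hb₁ : y₁ 0 1 = 0) (hb₂ : y₂ 0 1 = 0) :
    ∀ t, -(2 * Real.pi) ≤ t → y₁ t = 0 ∧ y₂ t = 0 := by
  have hpi := Real.pi_pos
  -- components of the relations
  have hr₁i : ∀ t, -(2 * Real.pi) ≤ t → ∀ i, y₁ (2 * Real.pi + t) i = a * y₁ t i - b * y₂ t i :=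
    fun t ht i => by rw [hr₁ t ht]; simp
  have hr₂i : ∀ t, -(2 * Real.pi) ≤ t → ∀ i, y₂ (2 * Real.pi + t) i = b * y₁ t i + a * y₂ t i :=
    fun t ht i => by rw [hr₂ t ht]; simp
  -- the radial components vanish
  have hra1 : ra y₁ (2 * Real.pi) = a * ra y₁ 0 - b * ra y₂ 0 := by
    have e0 := hr₁i 0 (by linarith) 0
    have e1 := hr₁i 0 (by linarith) 1
    rw [add_zero] at e0 e1
    simp only [ra, e0, e1, Real.cos_two_pi, Real.sin_two_pi, Real.cos_zero, Real.sin_zero]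
    ring
  have hra2 : ra y₂ (2 * Real.pi) = b * ra y₁ 0 + a * ra y₂ 0 := by
    have e0 := hr₂i 0 (by linarith) 0
    have e1 := hr₂i 0 (by linarith) 1
    rw [add_zero] at e0 e1
    simp only [ra, e0, e1, Real.cos_two_pi, Real.sin_two_pi, Real.cos_zero, Real.sin_zero]
    ring
  rw [ra_eq h₁ (by positivity)] at hra1
  rw [ra_eq h₂ (by positivity)] at hra2
  set q := Real.exp (-(2 * (2 * Real.pi))) with hq
  have hq1 : q < 1 := by rw [hq, Real.exp_lt_one_iff]; linarith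
  have hq0 : 0 < q := Real.exp_pos _
  have hsum : (1 - q ^ 2) * (ra y₁ 0 ^ 2 + ra y₂ 0 ^ 2) = 0 := by
    have h3 : (q * ra y₁ 0) ^ 2 + (q * ra y₂ 0) ^ 2 =
        (a ^ 2 + b ^ 2) * (ra y₁ 0 ^ 2 + ra y₂ 0 ^ 2) := by
      rw [hra1, hra2]; ring
    rw [hab] at h3
    nlinarith
  have hq2 : 1 - q ^ 2 ≠ 0 := by nlinarith
  have hsum' := (mul_eq_zero.1 hsum).resolve_left hq2
  have ha1 : ra y₁ 0 = 0 := by nlinarith [sq_nonneg (ra y₁ 0), sq_nonneg (ra y₂ 0)]
  have ha2 : ra y₂ 0 = 0 := by nlinarith [sq_nonneg (ra y₁ 0), sq_nonneg (ra y₂ 0)]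
  -- hence the first two components vanish
  have huv : ∀ y : ℝ → Fin 6 → ℝ, IsVarSolution ff rr 1 (XX 1) (2 * Real.pi) y → ra y 0 = 0 →
      y 0 1 = 0 → ∀ t, 0 ≤ t → y t 0 = 0 ∧ y t 1 = 0 := by
    intro y hy hy1 hy2 t ht
    have e1 := ra_eq hy ht
    have e2 := tb_eq hy ht
    rw [hy1, mul_zero] at e1
    rw [hy2] at e2
    unfold ra at e1
    unfold tb at e2
    have e3 := Real.sin_sq_add_cos_sq t
    constructor
    · linear_combination Real.cos t * e1 - Real.sin t * e2 - (y t 0) * e3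
    · linear_combination Real.sin t * e1 + Real.cos t * e2 - (y t 1) * e3
  have hinv1 : ∀ t, -(2 * Real.pi) ≤ t → ∀ i,
      y₁ t i = a * y₁ (2 * Real.pi + t) i + b * y₂ (2 * Real.pi + t) i := by
    intro t ht i
    rw [hr₁i t ht, hr₂i t ht]
    linear_combination (-(y₁ t i)) * hab
  have hinv2 : ∀ t, -(2 * Real.pi) ≤ t → ∀ i,
      y₂ t i = -b * y₁ (2 * Real.pi + t) i + a * y₂ (2 * Real.pi + t) i := by
    intro t ht i
    rw [hr₁i t ht, hr₂i t ht]
    linear_combination (-(y₂ t i)) * hab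
  have huv1 : ∀ t, -(2 * Real.pi) ≤ t → y₁ t 0 = 0 ∧ y₁ t 1 = 0 ∧ y₂ t 0 = 0 ∧ y₂ t 1 = 0 := by
    intro t ht
    have e1 := huv y₁ h₁ ha1 hb₁ (2 * Real.pi + t) (by linarith)
    have e2 := huv y₂ h₂ ha2 hb₂ (2 * Real.pi + t) (by linarith)
    refine ⟨?_, ?_, ?_, ?_⟩
    · rw [hinv1 t ht, e1.1, e2.1]; ring
    · rw [hinv1 t ht, e1.2, e2.2]; ring
    · rw [hinv2 t ht, e1.1, e2.1]; ring
    · rw [hinv2 t ht, e1.2, e2.2]; ring
  -- the remaining components
  have hdec : ∀ y : ℝ → Fin 6 → ℝ, IsVarSolution ff rr 1 (XX 1) (2 * Real.pi) y →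
      (∀ t, -(2 * Real.pi) ≤ t → y t 0 = 0 ∧ y t 1 = 0) → ∀ t, 0 < t →
      HasDerivAt (fun s => cx (y s)) (cy (y t)) t ∧
      HasDerivAt (fun s => cy (y s)) (((1 : ℝ) : ℂ) * (cx (y t) - 1 / 2 *
        ((⟨Real.cos t, Real.sin t⟩ : ℂ) * cx (y (t - 2 * Real.pi))))) t := by
    intro y hy hz t ht
    have hd : ∀ i, HasDerivAt (fun s => y s i)
        (DD (XX 1 t) (XX 1 (t - 2 * Real.pi)) (y t) (y (t - 2 * Real.pi)) i) t := fun i =>
      (var_decode hy ht.le i).hasDerivAt (Ici_mem_nhds ht)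
    obtain ⟨z0, z1⟩ := hz t (by linarith)
    obtain ⟨w0, w1⟩ := hz (t - 2 * Real.pi) (by linarith)
    constructor
    · refine (hasDerivAt_mk (hd 2) ((hd 3).fun_add ((hd 1).const_mul cA))).congr_deriv ?_
      apply Complex.ext
      · simp [DD, cy]
      · simp [DD, cy, z0, z1]
    · refine (hasDerivAt_mk ((hd 4).fun_sub ((hd 1).const_mul cB)) (hd 5)).congr_deriv ?_
      apply Complex.ext
      · simp [DD, cx, z0, z1, w1, XX_one_zero, XX_one_one]
      · simp [DD, cx, z0, z1, w1, XX_one_zero, XX_one_one]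
  have hd1 := hdec y₁ h₁ fun t ht => ⟨(huv1 t ht).1, (huv1 t ht).2.1⟩
  have hd2 := hdec y₂ h₂ fun t ht => ⟨(huv1 t ht).2.2.1, (huv1 t ht).2.2.2⟩
  set ξ : Fin 2 → ℝ → ℂ := ![fun s => cx (y₁ s), fun s => cx (y₂ s)] with hξ
  set η : Fin 2 → ℝ → ℂ := ![fun s => cy (y₁ s), fun s => cy (y₂ s)] with hη
  have hξc : ∀ y : ℝ → Fin 6 → ℝ, IsVarSolution ff rr 1 (XX 1) (2 * Real.pi) y →
      ContinuousOn (fun s => cx (y s)) (Ici (-(2 * Real.pi))) := by
    intro y hy
    have hc : ∀ i, ContinuousOn (fun s => y s i) (Ici (-(2 * Real.pi))) := fun i =>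
      (continuous_apply i).comp_continuousOn hy.1
    have e : (fun s => cx (y s)) = fun s => ((y s 2 : ℝ) : ℂ) +
        ((y s 3 + cA * y s 1 : ℝ) : ℂ) * Complex.I := by
      funext s
      apply Complex.ext <;> simp [cx]
    rw [e]
    exact (Complex.continuous_ofReal.comp_continuousOn (hc 2)).add
      ((Complex.continuous_ofReal.comp_continuousOn ((hc 3).add ((hc 1).const_mul cA))).mul
        continuousOn_const)
  have hmax := maxprin (ξ := ξ) (η := η)
    (ζ := fun i t => (⟨Real.cos t, Real.sin t⟩ : ℂ) * ξ i (t - 2 * Real.pi))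
    (κ := 1) (P := 2 * Real.pi) (r := 2 * Real.pi) one_pos (by positivity) (by positivity)
    (by
      intro i t ht
      fin_cases i
      · exact (hd1 t ht).1
      · exact (hd2 t ht).1)
    (by
      intro i t ht
      fin_cases i
      · exact (hd1 t ht).2
      · exact (hd2 t ht).2)
    (by
      intro i t _
      rw [norm_mul, ← exp_mk, norm_exp_I, one_mul])
    (by
      intro t ht
      have e1 : cx (y₁ (t + 2 * Real.pi)) = a * cx (y₁ t) - b * cx (y₂ t) := by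
        rw [add_comm t, hr₁ t ht]
        apply Complex.ext
        · simp [cx]
        · simp [cx]; ring
      have e2 : cx (y₂ (t + 2 * Real.pi)) = b * cx (y₁ t) + a * cx (y₂ t) := by
        rw [add_comm t, hr₂ t ht]
        apply Complex.ext
        · simp [cx]
        · simp [cx]; ring
      have e3 : ∀ z w : ℂ, ‖(a : ℂ) * z - b * w‖ ^ 2 + ‖(b : ℂ) * z + a * w‖ ^ 2 =
          ‖z‖ ^ 2 + ‖w‖ ^ 2 := by
        intro z w
        simp only [Complex.sq_norm, Complex.normSq_apply, Complex.sub_re, Complex.add_re,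
          Complex.sub_im, Complex.add_im, Complex.re_ofReal_mul, Complex.im_ofReal_mul]
        linear_combination (z.re ^ 2 + z.im ^ 2 + w.re ^ 2 + w.im ^ 2) * hab
      rw [Fin.sum_univ_two, Fin.sum_univ_two]
      show ‖cx (y₁ (t + 2 * Real.pi))‖ ^ 2 + ‖cx (y₂ (t + 2 * Real.pi))‖ ^ 2 =
        ‖cx (y₁ t)‖ ^ 2 + ‖cx (y₂ t)‖ ^ 2
      rw [e1, e2, e3])
    (by
      intro i
      fin_cases i
      · exact hξc y₁ h₁
      · exact hξc y₂ h₂)
  have hx1 : ∀ t, -(2 * Real.pi) ≤ t → cx (y₁ t) = 0 := fun t ht => hmax t ht 0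
  have hx2 : ∀ t, -(2 * Real.pi) ≤ t → cx (y₂ t) = 0 := fun t ht => hmax t ht 1
  have hcy : ∀ y : ℝ → Fin 6 → ℝ, (∀ t, 0 < t → HasDerivAt (fun s => cx (y s)) (cy (y t)) t) →
      (∀ t, -(2 * Real.pi) ≤ t → cx (y t) = 0) → ∀ t, 0 < t → cy (y t) = 0 := by
    intro y hy1 hy2 t ht
    have h3 : HasDerivAt (fun s => cx (y s)) 0 t := by
      refine (hasDerivAt_const t (0 : ℂ)).congr_of_eventuallyEq ?_
      filter_upwards [lt_mem_nhds ht] with s hs
      exact hy2 s (by linarith)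
    exact (hy1 t ht).unique h3
  have hy1c := hcy y₁ (fun t ht => (hd1 t ht).1) hx1
  have hy2c := hcy y₂ (fun t ht => (hd2 t ht).1) hx2
  -- all components vanish for `t > 0`
  have hz : ∀ y : ℝ → Fin 6 → ℝ, ∀ t, y t 0 = 0 → y t 1 = 0 → cx (y t) = 0 → cy (y t) = 0 →
      y t = 0 := by
    intro y t e0 e1 e2 e3
    have f1 := congrArg Complex.re e2
    have f2 := congrArg Complex.im e2
    have f3 := congrArg Complex.re e3
    have f4 := congrArg Complex.im e3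
    simp only [cx, cy, e1, mul_zero, add_zero, sub_zero, Complex.zero_re, Complex.zero_im] at f1 f2 f3 f4
    funext i
    fin_cases i
    · exact e0
    · exact e1
    · exact f1
    · exact f2
    · exact f3
    · exact f4
  have hpos : ∀ t, 0 < t → y₁ t = 0 ∧ y₂ t = 0 := by
    intro t ht
    obtain ⟨g1, g2, g3, g4⟩ := huv1 t (by linarith)
    exact ⟨hz y₁ t g1 g2 (hx1 t (by linarith)) (hy1c t ht),
      hz y₂ t g3 g4 (hx2 t (by linarith)) (hy2c t ht)⟩
  have hstep : ∀ t, -(2 * Real.pi) ≤ t → y₁ (2 * Real.pi + t) = 0 → y₂ (2 * Real.pi + t) = 0 →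
      y₁ t = 0 ∧ y₂ t = 0 := by
    intro t ht e1 e2
    constructor
    · funext i
      rw [hinv1 t ht i, e1, e2]
      simp
    · funext i
      rw [hinv2 t ht i, e1, e2]
      simp
  intro t ht
  have e1 := hpos (2 * Real.pi + (2 * Real.pi + t)) (by linarith)
  have e2 := hstep (2 * Real.pi + t) (by linarith) e1.1 e1.2
  exact hstep t ht e2.1 e2.2

lemma ff_one_contDiff : ContDiff ℝ 1 fun ξ : Fin 2 → Fin 6 → ℝ => ff (ξ, 1) :=
  ff_contDiff.comp (contDiff_id.prodMk contDiff_const)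

lemma rr_nonneg (k : Fin 2) : 0 ≤ rr k := by
  have := Real.pi_pos
  fin_cases k <;> simp [rr]
  positivity

lemma rr_le (k : Fin 2) : rr k ≤ 2 * Real.pi := by
  have := Real.pi_pos
  fin_cases k <;> simp [rr]
  positivity

lemma XX_cont : Continuous (XX 1) :=
  XX_continuous.comp (continuous_const.prodMk continuous_id)

lemma var_uniq {y z : ℝ → Fin 6 → ℝ} (hy : IsVarSolution ff rr 1 (XX 1) (2 * Real.pi) y)
    (hz : IsVarSolution ff rr 1 (XX 1) (2 * Real.pi) z)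
    (h0 : ∀ θ ∈ Icc (-(2 * Real.pi)) 0, y θ = z θ) : ∀ t, -(2 * Real.pi) ≤ t → y t = z t :=
  hy.unique ff_one_contDiff XX_cont rr_nonneg rr_le hz h0

lemma var_shift {y : ℝ → Fin 6 → ℝ} (hy : IsVarSolution ff rr 1 (XX 1) (2 * Real.pi) y) :
    IsVarSolution ff rr 1 (XX 1) (2 * Real.pi) fun s => y (2 * Real.pi + s) :=
  hy.shift (XX_periodic (k := 1) (by push_cast; ring)) (by positivity)

lemma XX_deriv_var : IsVarSolution ff rr 1 (XX 1) (2 * Real.pi) (deriv (XX 1)) :=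
  deriv_varSolution ff_one_contDiff (XX_sol 1) fun t => (XX_sol 1 t).deriv

lemma XX_deriv_periodic : Function.Periodic (deriv (XX 1)) (2 * Real.pi) := by
  intro t
  have h1 := XX_sol 1 (t + 2 * Real.pi)
  rw [h1.deriv, (XX_sol 1 t).deriv]
  have hper : Function.Periodic (XX 1) (2 * Real.pi) := XX_periodic (k := 1) (by push_cast; ring)
  have : hist rr (XX 1) (t + 2 * Real.pi) = hist rr (XX 1) t := by
    funext k
    unfold hist
    rw [← hper (t - rr k)]
    congr 1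
    ring
  rw [this]

lemma zero_var : IsVarSolution ff rr 1 (XX 1) (2 * Real.pi) fun _ => 0 := by
  have := XX_deriv_var.smul 0
  simpa using this

/-- Kernel rigidity: a `2π`-periodic variational solution without tangential part vanishes. -/
lemma ker_zero {y : ℝ → Fin 6 → ℝ} (hy : IsVarSolution ff rr 1 (XX 1) (2 * Real.pi) y)
    (hper : ∀ t, -(2 * Real.pi) ≤ t → y (2 * Real.pi + t) = y t) (h0 : y 0 1 = 0) :
    ∀ t, -(2 * Real.pi) ≤ t → y t = 0 := by
  intro t ht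
  refine (rot_zero hy zero_var (a := 1) (b := 0) (by norm_num) (fun s hs => ?_) (fun s hs => ?_) h0
    rfl t ht).1
  · rw [hper s hs]; simp
  · simp

theorem XX_hyperbolic : IsHyperbolic ff rr 1 (XX 1) (2 * Real.pi) (2 * Real.pi) := by
  have hpi := Real.pi_pos
  refine ⟨?_, ?_, ?_, ?_⟩
  · rintro μ ⟨hμ0, φ₁, φ₂, ⟨θ, hθ, hne⟩, ⟨y₁, hy₁, hi₁, hf₁⟩, ⟨y₂, hy₂, hi₂, hf₂⟩⟩ hμ1 hnorm
    have hab : μ.re ^ 2 + μ.im ^ 2 = 1 := by
      have : ‖μ‖ ^ 2 = 1 := by rw [hnorm]; norm_num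
      rw [Complex.sq_norm, Complex.normSq_apply] at this
      linarith
    have hr₁ : ∀ t, -(2 * Real.pi) ≤ t →
        y₁ (2 * Real.pi + t) = μ.re • y₁ t - μ.im • y₂ t :=
      var_uniq (var_shift hy₁) ((hy₁.smul μ.re).sub (hy₂.smul μ.im)) fun s hs => by
        rw [hf₁ s hs, hi₁ s hs, hi₂ s hs]
    have hr₂ : ∀ t, -(2 * Real.pi) ≤ t →
        y₂ (2 * Real.pi + t) = μ.im • y₁ t + μ.re • y₂ t :=
      var_uniq (var_shift hy₂) ((hy₁.smul μ.im).add (hy₂.smul μ.re)) fun s hs => by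
        rw [hf₂ s hs, hi₁ s hs, hi₂ s hs]
    -- the tangential components
    have htb : ∀ y : ℝ → Fin 6 → ℝ, IsVarSolution ff rr 1 (XX 1) (2 * Real.pi) y →
        y (2 * Real.pi) 1 = y 0 1 := by
      intro y hy
      have := tb_eq hy (t := 2 * Real.pi) (by positivity)
      simpa [tb] using this
    have e1 := congrFun (hr₁ 0 (by linarith)) 1
    have e2 := congrFun (hr₂ 0 (by linarith)) 1
    rw [add_zero, htb y₁ hy₁] at e1
    rw [add_zero, htb y₂ hy₂] at e2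
    simp only [Pi.sub_apply, Pi.add_apply, Pi.smul_apply, smul_eq_mul] at e1 e2
    have hne1 : (1 - μ.re) ^ 2 + μ.im ^ 2 ≠ 0 := by
      intro h
      apply hμ1
      have h3 : 1 - μ.re = 0 := by nlinarith [sq_nonneg (1 - μ.re), sq_nonneg μ.im]
      have h4 : μ.im = 0 := by nlinarith [sq_nonneg (1 - μ.re), sq_nonneg μ.im]
      apply Complex.ext
      · simp; linarith
      · simp [h4]
    have hb₁ : y₁ 0 1 = 0 := by
      have : ((1 - μ.re) ^ 2 + μ.im ^ 2) * y₁ 0 1 = 0 := by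
        linear_combination (1 - μ.re) * e1 - μ.im * e2
      exact (mul_eq_zero.1 this).resolve_left hne1
    have hb₂ : y₂ 0 1 = 0 := by
      have : ((1 - μ.re) ^ 2 + μ.im ^ 2) * y₂ 0 1 = 0 := by
        linear_combination μ.im * e1 + (1 - μ.re) * e2
      exact (mul_eq_zero.1 this).resolve_left hne1
    have hz := rot_zero hy₁ hy₂ hab hr₁ hr₂ hb₁ hb₂ θ hθ.1
    rw [hi₁ θ hθ, hi₂ θ hθ] at hz
    rcases hne with h | h
    · exact h hz.1
    · exact h hz.2
  · refine ⟨one_ne_zero, deriv (XX 1), fun _ => 0, ⟨0, ⟨by linarith, le_rfl⟩, Or.inl ?_⟩,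
      ⟨deriv (XX 1), XX_deriv_var, fun _ _ => rfl, fun θ _ => ?_⟩,
      ⟨fun _ => 0, zero_var, fun _ _ => rfl, fun θ _ => ?_⟩⟩
    · rw [XX_deriv_zero]
      intro h
      have := congrFun h 1
      simp at this
    · rw [add_comm, XX_deriv_periodic]
      simp
    · simp
  · rintro ψ ⟨y, hy, hi, hf⟩
    have hper : ∀ t, -(2 * Real.pi) ≤ t → y (2 * Real.pi + t) = y t :=
      var_uniq (var_shift hy) hy fun s hs => by rw [hf s hs, hi s hs]
    refine ⟨y 0 1, fun θ hθ => ?_⟩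
    have h1 := ker_zero (hy.sub (XX_deriv_var.smul (y 0 1))) (fun t ht => by
      rw [hper t ht, add_comm, XX_deriv_periodic]) (by
      rw [XX_deriv_zero]; simp) θ hθ.1
    rw [← hi θ hθ]
    exact sub_eq_zero.1 h1
  · rintro φ ψ ⟨y, hy, hiy, hfy⟩ ⟨z, hz, hiz, hfz⟩ θ hθ
    have h1 : ∀ t, -(2 * Real.pi) ≤ t → y (2 * Real.pi + t) = y t + z t :=
      var_uniq (var_shift hy) (hy.add hz) fun s hs => by rw [hfy s hs, hiy s hs, hiz s hs]
    have h2 : ∀ t, -(2 * Real.pi) ≤ t → z (2 * Real.pi + t) = z t :=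
      var_uniq (var_shift hz) hz fun s hs => by rw [hfz s hs, hiz s hs]
    have h3 : z 0 1 = 0 := by
      have e1 := congrFun (h1 0 (by linarith)) 1
      rw [add_zero] at e1
      have e2 := tb_eq hy (t := 2 * Real.pi) (by positivity)
      simp only [tb, Real.sin_two_pi, Real.cos_two_pi, neg_zero, zero_mul, zero_add, one_mul] at e2
      rw [e2, Pi.add_apply] at e1
      linarith
    rw [← hiz θ hθ]
    exact ker_zero hz h2 h3 θ hθ.1

/-! ### Uniqueness of the continuation -/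

lemma family_value {α P : ℝ} (hα : 0 < α) {X : ℝ → Fin 6 → ℝ} (hX : IsSolution ff rr α X)
    (hP : 0 < P) (hper : Function.Periodic X P) (hv0 : X 0 1 = 0) (hu0 : 0 < X 0 0) :
    cx (X 0) = GG α := by
  have hpi := Real.pi_pos
  have hdu := fun t => (sol_decode hX t).1
  have hdv := fun t => (sol_decode hX t).2.1
  have hdx := fun t => (sol_decode hX t).2.2.1
  have hdy := fun t => (sol_decode hX t).2.2.2
  have hperi : ∀ t i, X (t + P) i = X t i := fun t i => by rw [hper t]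
  -- `s = u² + v²`
  set s : ℝ → ℝ := fun t => X t 0 ^ 2 + X t 1 ^ 2 with hs
  have hds : ∀ t, HasDerivAt s (2 * s t * (1 - s t)) t := by
    intro t
    refine (((hdu t).fun_pow 2).fun_add ((hdv t).fun_pow 2)).congr_deriv ?_
    simp only [hs, Nat.cast_ofNat, Nat.add_one_sub_one, pow_one]
    ring
  have hsc : Continuous s := continuous_iff_continuousAt.2 fun t => (hds t).continuousAt
  have hsper : ∀ t, s (t + P) = s t := fun t => by simp only [hs, hperi]
  have hspern : ∀ (n : ℕ) t, s (t + n * P) = s t := by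
    intro n
    induction n with
    | zero => intro t; simp
    | succ n ih =>
      intro t
      have e : t + ((n + 1 : ℕ) : ℝ) * P = t + n * P + P := by push_cast; ring
      rw [e, hsper, ih]
  have hsperz : ∀ (n : ℤ) t, s (t + n * P) = s t := by
    intro n t
    rcases n.eq_nat_or_neg with ⟨m, rfl | rfl⟩
    · exact_mod_cast hspern m t
    · have h := hspern m (t + ((-(m : ℤ) : ℤ) : ℝ) * P)
      rw [← h]
      congr 1
      push_cast
      ring
  obtain ⟨t₁, -, hmax⟩ := isCompact_Icc.exists_isMaxOn (s := Icc 0 P) ⟨0, le_rfl, hP.le⟩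
    hsc.continuousOn
  have hmax' : ∀ t, s t ≤ s t₁ := by
    intro t
    set n : ℤ := ⌊t / P⌋ with hn
    have h4 : (n : ℝ) ≤ t / P := Int.floor_le _
    have h5 : t / P < n + 1 := Int.lt_floor_add_one _
    rw [le_div_iff₀ hP] at h4
    rw [div_lt_iff₀ hP] at h5
    have h6 : t - n * P ∈ Icc 0 P := ⟨by linarith, by linarith⟩
    have h7 := hsperz n (t - n * P)
    rw [sub_add_cancel] at h7
    rw [h7]
    exact hmax h6
  have hs0 : 0 < s 0 := by
    simp only [hs, hv0]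
    positivity
  have hs1 : s t₁ = 1 := by
    have hlm : IsLocalMax s t₁ := Eventually.of_forall hmax'
    have h0 := hlm.hasDerivAt_eq_zero (hds t₁)
    have hpos : 0 < s t₁ := lt_of_lt_of_le hs0 (hmax' 0)
    have h1 := (mul_eq_zero.1 h0).resolve_left (by positivity)
    linarith
  have hsnn : ∀ t, 0 ≤ s t := fun t => by simp only [hs]; positivity
  have hmono : Monotone s := by
    apply monotone_of_deriv_nonneg
    · exact fun t => (hds t).differentiableAt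
    · intro t
      rw [(hds t).deriv]
      have h1 := hmax' t
      rw [hs1] at h1
      have h2 := hsnn t
      have h3 : 0 ≤ 1 - s t := by linarith
      positivity
  have hsone : ∀ t, s t = 1 := by
    intro t
    obtain ⟨n, hn⟩ := exists_nat_ge ((t₁ - t) / P)
    rw [div_le_iff₀ hP] at hn
    have h1 : s t₁ ≤ s (t + n * P) := hmono (by linarith)
    rw [hspern, hs1] at h1
    have h2 := hmax' t
    rw [hs1] at h2
    linarith
  have hu01 : X 0 0 = 1 := by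
    have h1 := hsone 0
    simp only [hs, hv0] at h1
    nlinarith
  -- the circle
  have hdu' : ∀ t, HasDerivAt (fun t => X t 0) (-(α * X t 1)) t := fun t => by
    refine (hdu t).congr_deriv ?_
    have h1 := hsone t
    simp only [hs] at h1
    linear_combination (-(X t 0)) * h1
  have hdv' : ∀ t, HasDerivAt (fun t => X t 1) (α * X t 0) t := fun t => by
    refine (hdv t).congr_deriv ?_
    have h1 := hsone t
    simp only [hs] at h1
    linear_combination (-(X t 1)) * h1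
  have hc : ∀ t, HasDerivAt (fun t => Real.cos (α * t)) (-Real.sin (α * t) * α) t := fun t => by
    have h1 : HasDerivAt (fun t : ℝ => α * t) α t := by simpa using (hasDerivAt_id t).const_mul α
    exact h1.cos
  have hsn : ∀ t, HasDerivAt (fun t => Real.sin (α * t)) (Real.cos (α * t) * α) t := fun t => by
    have h1 : HasDerivAt (fun t : ℝ => α * t) α t := by simpa using (hasDerivAt_id t).const_mul α
    exact h1.sin
  have hconst1 : ∀ t, X t 0 * Real.cos (α * t) + X t 1 * Real.sin (α * t) = 1 := by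
    have hd : ∀ t, HasDerivAt (fun t => X t 0 * Real.cos (α * t) + X t 1 * Real.sin (α * t)) 0 t := by
      intro t
      refine (((hdu' t).fun_mul (hc t)).fun_add ((hdv' t).fun_mul (hsn t))).congr_deriv ?_
      ring
    intro t
    have := is_const_of_deriv_eq_zero (fun t => (hd t).differentiableAt) (fun t => (hd t).deriv) t 0
    simpa [hu01, hv0] using this
  have hconst2 : ∀ t, -(X t 0 * Real.sin (α * t)) + X t 1 * Real.cos (α * t) = 0 := by
    have hd : ∀ t, HasDerivAt (fun t => -(X t 0 * Real.sin (α * t)) + X t 1 * Real.cos (α * t)) 0 t := by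
      intro t
      refine (((hdu' t).fun_mul (hsn t)).fun_neg.fun_add ((hdv' t).fun_mul (hc t))).congr_deriv ?_
      ring
    intro t
    have := is_const_of_deriv_eq_zero (fun t => (hd t).differentiableAt) (fun t => (hd t).deriv) t 0
    simpa [hu01, hv0] using this
  have hu : ∀ t, X t 0 = Real.cos (α * t) := by
    intro t
    have h3 := Real.sin_sq_add_cos_sq (α * t)
    linear_combination Real.cos (α * t) * hconst1 t - Real.sin (α * t) * hconst2 t - X t 0 * h3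
  have hv : ∀ t, X t 1 = Real.sin (α * t) := by
    intro t
    have h3 := Real.sin_sq_add_cos_sq (α * t)
    linear_combination Real.sin (α * t) * hconst1 t + Real.cos (α * t) * hconst2 t - X t 1 * h3
  -- the period
  obtain ⟨k, hk⟩ : ∃ k : ℤ, α * P = k * (2 * Real.pi) := by
    have h1 : Real.cos (α * P) = 1 := by
      rw [← hu P, ← hu01]
      have := hperi 0 0
      rwa [zero_add] at this
    obtain ⟨k, hk⟩ := (Real.cos_eq_one_iff _).1 h1
    exact ⟨k, hk.symm⟩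
  -- comparison
  set D : ℝ → ℂ := fun t => cx (X t) - TT (aa 0) α t with hD
  set D' : ℝ → ℂ := fun t => cy (X t) - α * TT (aa 1) α t with hD'
  have hd1 : ∀ t, HasDerivAt D (D' t) t := fun t => (hdx t).fun_sub (hasDerivAt_aa 0 α t)
  have hd2 : ∀ t, HasDerivAt D' (((α ^ 2 : ℝ) : ℂ) * (D t - 1 / 2 *
      ((⟨Real.cos (α * t), Real.sin (α * t)⟩ : ℂ) * D (t - 2 * Real.pi)))) t := by
    intro t
    refine ((hdy t).fun_sub ((hasDerivAt_aa 1 α t).const_mul (α : ℂ))).congr_deriv ?_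
    rw [show 1 + 1 = 2 from rfl, TT_eq, exp_mk, hu, hv]
    simp only [hD]
    push_cast
    ring
  have hDc : Continuous D := continuous_iff_continuousAt.2 fun t => (hd1 t).continuousAt
  have hzero := maxprin (ι := Unit) (ξ := fun _ => D) (η := fun _ => D')
    (ζ := fun _ t => (⟨Real.cos (α * t), Real.sin (α * t)⟩ : ℂ) * D (t - 2 * Real.pi))
    (κ := α ^ 2) (P := P) (r := 2 * Real.pi) (by positivity) hP (by positivity)
    (fun _ t _ => hd1 t) (fun _ t _ => hd2 t) (fun _ t _ => by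
      rw [norm_mul, ← exp_mk, norm_exp_I, one_mul]) (fun t _ => by
      have e1 : D (t + P) = D t := by
        simp only [hD]
        rw [hper t, TT_period hk]
      rw [e1]) (fun _ => hDc.continuousOn) 0 (by linarith) ()
  rw [GG_eq]
  exact sub_eq_zero.1 hzero

lemma XX_isContinuation :
    IsContinuation ff rr 1 (XX 1) (2 * Real.pi) XX (fun α => 2 * Real.pi / α) := by
  have hpi := Real.pi_pos
  refine ⟨rfl, by simp, ?_, ?_, ?_, ?_⟩
  · filter_upwards [lt_mem_nhds (one_pos : (0 : ℝ) < 1)] with α hα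
    refine ⟨XX_sol α, by positivity, XX_periodic (k := 1) ?_⟩
    push_cast
    field_simp
  · refine Eventually.of_forall fun α => ?_
    rw [XX_deriv_zero, Fin.sum_univ_six]
    simp [XX]
  · apply ContinuousAt.div continuousAt_const continuousAt_id
    norm_num
  · intro t
    exact XX_continuous.continuousAt

lemma not_analytic_family {X : ℝ → ℝ → Fin 6 → ℝ} {p : ℝ → ℝ}
    (h : IsContinuation ff rr 1 (XX 1) (2 * Real.pi) X p) :
    ¬ AnalyticAt ℝ (fun α => X α 0) 1 := by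
  intro han
  apply not_analytic_GG
  have hcont : ContinuousAt (fun α => X α 0) 1 := han.continuousAt
  have h00 : X 1 0 = XX 1 0 := by rw [h.start]
  have hval : ∀ᶠ α in 𝓝 (1 : ℝ), cx (X α 0) = GG α := by
    have hu : ∀ᶠ α in 𝓝 (1 : ℝ), 0 < X α 0 0 := by
      have h1 : ContinuousAt (fun α => X α 0 0) 1 := (continuous_apply 0).continuousAt.comp hcont
      have h2 : (0 : ℝ) < X 1 0 0 := by rw [h00, XX_one_zero]; simp
      exact h1.eventually (lt_mem_nhds h2)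
    filter_upwards [h.solution, h.section_cond, hu, lt_mem_nhds (one_pos : (0 : ℝ) < 1)] with α h1 h2
      h3 h4
    rw [XX_deriv_zero, Fin.sum_univ_six] at h2
    simp only [Matrix.cons_val, mul_zero, mul_one, zero_add, add_zero] at h2
    rw [XX_one_one, Real.sin_zero, sub_zero] at h2
    exact family_value h4 h1.1 h1.2.1 h1.2.2 h2 h3
  have hcomp : ∀ i, AnalyticAt ℝ (fun α => X α 0 i) 1 := fun i =>
    (ContinuousLinearMap.proj (R := ℝ) (φ := fun _ : Fin 6 => ℝ) i).analyticAt _ |>.comp han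
  have hcx : AnalyticAt ℝ (fun α => cx (X α 0)) 1 := by
    have e : (fun α => cx (X α 0)) = fun α => Complex.ofRealCLM (X α 0 2) +
        Complex.ofRealCLM (X α 0 3 + cA * X α 0 1) * Complex.I := by
      funext α
      apply Complex.ext <;> simp [cx]
    rw [e]
    exact ((Complex.ofRealCLM.analyticAt _).comp (hcomp 2)).add
      (((Complex.ofRealCLM.analyticAt _).comp
        ((hcomp 3).add (analyticAt_const.mul (hcomp 1)))).mul analyticAt_const)
  exact hcx.congr hval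

end Example

/-- **Hyperbolic periodic solutions of analytic delay equations need not depend analytically on
the parameter.**

There are dimensions `N`, `M ≥ 1`, delays `0 = r_0, r_1, …, r_M ≥ 0` with maximum `R`, a real
analytic `f`, a parameter value `α₀` and a hyperbolic periodic solution `x₀` with minimal period
`p₀`, such that a continuation of `x₀` for `α` near `α₀` (with the section condition
`⟨x(0, α) - x₀(0), x₀'(0)⟩ = 0`) exists, and such that for every such continuation `α ↦ x(0, α)`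
is not real analytic at `α₀`. -/
theorem result : ∃ (N M : ℕ) (r : Fin (M + 1) → ℝ) (R : ℝ)
    (f : (Fin (M + 1) → Fin N → ℝ) × ℝ → Fin N → ℝ) (α₀ p₀ : ℝ) (x₀ : ℝ → Fin N → ℝ),
    1 ≤ N ∧ 1 ≤ M ∧ r 0 = 0 ∧ (∀ k, 0 ≤ r k) ∧ IsGreatest (range r) R ∧
    AnalyticOnNhd ℝ f univ ∧ IsPeriodicSolution f r α₀ x₀ p₀ ∧ IsHyperbolic f r α₀ x₀ R p₀ ∧
    (∃ X p, IsContinuation f r α₀ x₀ p₀ X p) ∧
    ∀ X p, IsContinuation f r α₀ x₀ p₀ X p → ¬ AnalyticAt ℝ (fun α => X α 0) α₀ := by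
  refine ⟨6, 1, rr, 2 * Real.pi, ff, 1, 2 * Real.pi, XX 1, by norm_num, le_rfl, by simp [rr],
    rr_nonneg, ⟨⟨1, by simp [rr]⟩, ?_⟩, ff_analytic, XX_isPeriodicSolution, XX_hyperbolic,
    ⟨_, _, XX_isContinuation⟩, fun X p h => not_analytic_family h⟩
  rintro _ ⟨k, rfl⟩
  exact rr_le k

end Pool.Agent.Results.MP_c1c035_an.NotAnalytic
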